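import Pool.Agent.Helper25.TF.Main

/-!
# Graphs without an induced complete bipartite graph `K_{t, ℵ₀}` and without large cliques
-/

set_option autoImplicit false

open Cardinal Set

namespace Pool.Agent.Helper94.TF

open Pool.Agent.Helper25.TF

universe u

variable {V : Type u}

/-- `H₀` is isomorphic to an induced subgraph of `G` with vertices in `W` -/
def Emb (G : SimpleGraph V) (W : Set V) {β : Type} (H₀ : SimpleGraph β) : Prop :=
  ∃ f : β → V, Function.Injective f ∧ (∀ x, f x ∈ W) ∧ ∀ x y, G.Adj (f x) (f y) ↔ H₀.Adj x y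

theorem Emb.mono {G : SimpleGraph V} {W W' : Set V} {β : Type} {H₀ : SimpleGraph β}
    (h : Emb G W H₀) (hW : W ⊆ W') : Emb G W' H₀ := by
  obtain ⟨f, h1, h2, h3⟩ := h
  exact ⟨f, h1, fun x => hW (h2 x), h3⟩

theorem clique_le {G : SimpleGraph V} {Λ : Type u} (hbad : Bad G Λ) (hΛ : ℵ₀ ≤ #Λ) {K : Set V}
    (hK : G.IsClique K) : #K ≤ #Λ := by
  by_contra hcon
  have h1 : #(TT Λ × TT Λ × TT Λ) ≤ #K := by
    rw [mk_TT3 Λ hΛ]
    exact Order.succ_le_of_lt (not_le.1 hcon)
  obtain ⟨e⟩ := Cardinal.le_def _ _ |>.1 h1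
  have := nonempty_TT Λ
  refine no_clique hbad (specker (TT Λ)) (specker_free _) (specker_col (TT_fibre Λ hΛ))
    (fun i => (e i).1) ?_
  intro p q hpq
  exact hK (e p).2 (e q).2 (fun h => hpq (e.injective (Subtype.ext h)))

theorem mk_iUnion_le {ι : Type u} {f : ι → Set V} {c : Cardinal.{u}} (h : ∀ i, #(f i) ≤ c) :
    #(⋃ i, f i : Set V) ≤ #ι * c := by
  refine (Cardinal.mk_iUnion_le_sum_mk).trans ?_
  refine (Cardinal.sum_le_sum (fun i => #(f i)) (fun _ => c) h).trans ?_
  rw [Cardinal.sum_const, Cardinal.lift_id, Cardinal.lift_id]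

/-- the theorem of Dushnik and Miller for graphs without large cliques -/
theorem dm {G : SimpleGraph V} {lam : Cardinal.{u}} (hlam : ℵ₀ ≤ lam)
    (hcl : ∀ K : Set V, G.IsClique K → #K ≤ lam) {X : Set V} (hX : lam < #X) :
    ∃ g : ℕ → V, (∀ n, g n ∈ X) ∧ ∀ m n, m ≠ n → g m ≠ g n ∧ ¬ G.Adj (g m) (g n) := by
  classical
  have hVne : Nonempty V := by
    have h1 : #X ≠ 0 := (Cardinal.aleph0_pos.trans_le (hlam.trans hX.le)).ne'
    obtain ⟨x⟩ := Cardinal.mk_ne_zero_iff.1 h1
    exact ⟨x.1⟩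
  by_cases hA : ∀ Y ⊆ X, lam < #Y → ∃ y ∈ Y, lam < #{x | x ∈ Y ∧ x ≠ y ∧ ¬ G.Adj y x}
  · choose! y hy hyl using hA
    let Y : ℕ → Set V := fun n => Nat.rec X
      (fun _ Z => {x | x ∈ Z ∧ x ≠ y Z ∧ ¬ G.Adj (y Z) x}) n
    have hY0 : Y 0 = X := rfl
    have hYs : ∀ n, Y (n + 1) = {x | x ∈ Y n ∧ x ≠ y (Y n) ∧ ¬ G.Adj (y (Y n)) x} :=
      fun n => rfl
    have hYn : ∀ n, Y n ⊆ X ∧ lam < #↥(Y n) := by
      intro n
      induction n with
      | zero => exact ⟨Subset.rfl, hX⟩
      | succ n ih =>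
        rw [hYs n]
        exact ⟨fun x hx => ih.1 hx.1, hyl (Y n) ih.1 ih.2⟩
    have hmono : ∀ m n, m ≤ n → Y n ⊆ Y m := by
      intro m n hmn
      induction n, hmn using Nat.le_induction with
      | base => exact Subset.rfl
      | succ n _ ih =>
        rw [hYs n]
        exact fun x hx => ih hx.1
    have key : ∀ m n, m < n → y (Y n) ≠ y (Y m) ∧ ¬ G.Adj (y (Y m)) (y (Y n)) := by
      intro m n hmn
      have h1 := hmono (m + 1) n hmn (hy (Y n) (hYn n).1 (hYn n).2)
      rw [hYs m] at h1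
      exact h1.2
    refine ⟨fun n => y (Y n), fun n => (hYn n).1 (hy (Y n) (hYn n).1 (hYn n).2), ?_⟩
    intro m n hmn
    rcases lt_or_gt_of_ne hmn with h | h
    · exact ⟨(key m n h).1.symm, (key m n h).2⟩
    · exact ⟨(key n m h).1, fun h2 => (key n m h).2 h2.symm⟩
  · push Not at hA
    obtain ⟨Y, -, hYl, hY⟩ := hA
    exfalso
    obtain ⟨K, hKY, hKmax⟩ : ∃ K, (K ⊆ Y ∧ G.IsClique K) ∧
        ∀ K', (K' ⊆ Y ∧ G.IsClique K') → K ⊆ K' → K' = K := by
      obtain ⟨K, hK⟩ := zorn_subset {K : Set V | K ⊆ Y ∧ G.IsClique K} (by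
        intro c hc hchain
        refine ⟨⋃₀ c, ⟨sUnion_subset fun K hK => (hc hK).1, ?_⟩,
          fun K hK => subset_sUnion_of_mem hK⟩
        intro a ha b hb hab
        obtain ⟨K1, h1, h2⟩ := ha
        obtain ⟨K2, h3, h4⟩ := hb
        rcases hchain.total h1 h3 with h | h
        · exact (hc h3).2 (h h2) h4 hab
        · exact (hc h1).2 h2 (h h4) hab)
      refine ⟨K, hK.1, ?_⟩
      intro K' hK' hsub
      exact (hK.2 hK' hsub).antisymm hsub
    have hcover : Y ⊆ K ∪ ⋃ k : K, {x | x ∈ Y ∧ x ≠ k.1 ∧ ¬ G.Adj k.1 x} := by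
      intro x hx
      by_contra hcon
      have hxK : x ∉ K := fun h => hcon (Or.inl h)
      have hadj : ∀ k ∈ K, G.Adj k x := by
        intro k hk
        by_contra h1
        exact hcon (Or.inr (mem_iUnion.2 ⟨⟨k, hk⟩, hx, fun h2 => hxK (h2 ▸ hk), h1⟩))
      have h2 := hKmax (insert x K) ⟨insert_subset hx hKY.1, by
        rw [SimpleGraph.isClique_insert]
        exact ⟨hKY.2, fun b hb _ => (hadj b hb).symm⟩⟩ (subset_insert x K)
      exact hxK (h2 ▸ mem_insert x K)
    have hK : #K ≤ lam := hcl K hKY.2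
    have h3 : #(⋃ k : K, {x | x ∈ Y ∧ x ≠ k.1 ∧ ¬ G.Adj k.1 x} : Set V) ≤ lam := by
      refine (mk_iUnion_le (fun k : K => hY k.1 (hKY.1 k.2))).trans ?_
      exact (mul_le_mul_left hK _).trans (Cardinal.mul_eq_self hlam).le
    have h4 := (Cardinal.mk_le_mk_of_subset hcover).trans (Cardinal.mk_union_le _ _)
    have h5 : #K + #(⋃ k : K, {x | x ∈ Y ∧ x ≠ k.1 ∧ ¬ G.Adj k.1 x} : Set V) ≤ lam :=
      (add_le_add hK h3).trans (Cardinal.add_eq_self hlam).le
    exact absurd (h4.trans h5) (not_le.2 hYl)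

/-- the vertices of `X` adjacent to the members of an independent `t`-tuple in `S` -/
def cn (G : SimpleGraph V) (X : Set V) (t : ℕ) (S : Set V) : Set V :=
  {x | x ∈ X ∧ ∃ A : Fin t → V, (∀ i, A i ∈ S) ∧ (∀ i j, i ≠ j → A i ≠ A j ∧ ¬ G.Adj (A i) (A j))
    ∧ ∀ i, G.Adj (A i) x}

/-- `C` contains the common neighbours in `X` of the independent `t`-tuples in `C` -/
def Clo (G : SimpleGraph V) (X : Set V) (t : ℕ) (C : Set V) : Prop := cn G X t C ⊆ C

theorem cn_mono {G : SimpleGraph V} {X : Set V} {t : ℕ} {S S' : Set V} (h : S ⊆ S') :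
    cn G X t S ⊆ cn G X t S' := by
  rintro x ⟨hx, A, h1, h2, h3⟩
  exact ⟨hx, A, fun i => h (h1 i), h2, h3⟩

theorem cn_card {G : SimpleGraph V} {lam : Cardinal.{u}} (hlam : ℵ₀ ≤ lam)
    (hcl : ∀ K : Set V, G.IsClique K → #K ≤ lam) {X : Set V} {t : ℕ}
    (hX : ¬ Emb G X (completeBipartiteGraph (Fin t) ℕ)) {S : Set V} (hSX : S ⊆ X) :
    #(cn G X t S) ≤ max #S lam := by
  classical
  have h1 : ∀ A : Fin t → S, (∀ i j, i ≠ j → (A i).1 ≠ (A j).1 ∧ ¬ G.Adj (A i).1 (A j).1) →
      #{x | x ∈ X ∧ ∀ i, G.Adj (A i).1 x} ≤ lam := by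
    intro A hA
    by_contra hcon
    obtain ⟨g, hg1, hg2⟩ := dm hlam hcl (not_le.1 hcon)
    apply hX
    refine ⟨Sum.elim (fun i => (A i).1) g, ?_, ?_, ?_⟩
    · rintro (i | m) (j | n) h
      · have h : (A i).1 = (A j).1 := h
        by_contra hne
        exact (hA i j (fun h2 => hne (congrArg _ h2))).1 h
      · have h : (A i).1 = g n := h
        exact absurd ((hg1 n).2 i) (by rw [h]; exact G.loopless.irrefl _)
      · have h : g m = (A j).1 := h
        exact absurd ((hg1 m).2 j) (by rw [h]; exact G.loopless.irrefl _)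
      · have h : g m = g n := h
        by_contra hne
        exact (hg2 m n (fun h2 => hne (congrArg _ h2))).1 h
    · rintro (i | m)
      · exact hSX (A i).2
      · exact (hg1 m).1
    · rintro (i | m) (j | n)
      · simp only [Sum.elim_inl, completeBipartiteGraph_adj, Sum.isLeft_inl, Sum.isRight_inl]
        constructor
        · intro h
          exfalso
          by_cases hij : i = j
          · subst hij
            exact G.loopless.irrefl _ h
          · exact (hA i j hij).2 h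
        · simp
      · simp only [Sum.elim_inl, Sum.elim_inr, completeBipartiteGraph_adj, Sum.isLeft_inl,
          Sum.isRight_inr]
        exact ⟨fun _ => by simp, fun _ => (hg1 n).2 i⟩
      · simp only [Sum.elim_inl, Sum.elim_inr, completeBipartiteGraph_adj, Sum.isLeft_inl,
          Sum.isRight_inr]
        exact ⟨fun _ => by simp, fun _ => ((hg1 m).2 j).symm⟩
      · simp only [Sum.elim_inr, completeBipartiteGraph_adj, Sum.isLeft_inr, Sum.isRight_inr]
        constructor
        · intro h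
          exfalso
          by_cases hmn : m = n
          · subst hmn
            exact G.loopless.irrefl _ h
          · exact (hg2 m n hmn).2 h
        · simp
  have h2 : cn G X t S ⊆ ⋃ A : {A : Fin t → S // ∀ i j, i ≠ j →
      (A i).1 ≠ (A j).1 ∧ ¬ G.Adj (A i).1 (A j).1}, {x | x ∈ X ∧ ∀ i, G.Adj (A.1 i).1 x} := by
    rintro x ⟨hx, A, h3, h4, h5⟩
    exact mem_iUnion.2 ⟨⟨fun i => ⟨A i, h3 i⟩, h4⟩, hx, h5⟩
  refine (Cardinal.mk_le_mk_of_subset h2).trans ((mk_iUnion_le
    (fun A : {A : Fin t → S // ∀ i j, i ≠ j → (A i).1 ≠ (A j).1 ∧ ¬ G.Adj (A i).1 (A j).1} =>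
      h1 A.1 A.2)).trans ?_)
  have h6 : #{A : Fin t → S // ∀ i j, i ≠ j → (A i).1 ≠ (A j).1 ∧ ¬ G.Adj (A i).1 (A j).1} ≤
      max #S lam := by
    refine (Cardinal.mk_subtype_le _).trans ?_
    have e1 : #(Fin t → S) = #S ^ t := by simp
    rw [e1]
    calc #S ^ t ≤ (max #S lam) ^ t := by
          exact pow_le_pow_left' (le_max_left _ _) t
      _ ≤ max #S lam := Cardinal.power_nat_le (hlam.trans (le_max_right _ _))
  calc _ ≤ max #S lam * max #S lam := mul_le_mul' h6 (le_max_right _ _)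
    _ = max #S lam := Cardinal.mul_eq_self (hlam.trans (le_max_right _ _))

/-- closing a set under `cn` -/
theorem exists_clo {G : SimpleGraph V} {lam : Cardinal.{u}} (hlam : ℵ₀ ≤ lam)
    (hcl : ∀ K : Set V, G.IsClique K → #K ≤ lam) {X : Set V} {t : ℕ}
    (hX : ¬ Emb G X (completeBipartiteGraph (Fin t) ℕ)) :
    ∃ cl : Set V → Set V, ∀ S ⊆ X, S ⊆ cl S ∧ cl S ⊆ X ∧ #(cl S) ≤ max #S lam ∧
      Clo G X t (cl S) ∧ ∀ S' ⊆ S, cl S' ⊆ cl S := by
  classical
  let T : ℕ → Set V → Set V := fun n S => Nat.rec S (fun _ Z => Z ∪ cn G X t Z) n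
  have hT0 : ∀ S, T 0 S = S := fun S => rfl
  have hTs : ∀ n S, T (n + 1) S = T n S ∪ cn G X t (T n S) := fun n S => rfl
  have hmono : ∀ m n S, m ≤ n → T m S ⊆ T n S := by
    intro m n S hmn
    induction n, hmn using Nat.le_induction with
    | base => exact Subset.rfl
    | succ n _ ih =>
      rw [hTs n]
      exact ih.trans subset_union_left
  refine ⟨fun S => ⋃ n : ℕ, T n S, fun S hS => ?_⟩
  have hTX : ∀ n, T n S ⊆ X := by
    intro n
    induction n with
    | zero => exact hS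
    | succ n ih =>
      rw [hTs n]
      exact union_subset ih (fun x hx => hx.1)
  have hTc : ∀ n, #↥(T n S) ≤ max #S lam := by
    intro n
    induction n with
    | zero => exact le_max_left _ _
    | succ n ih =>
      rw [hTs n]
      refine (Cardinal.mk_union_le _ _).trans ?_
      have h1 := cn_card hlam hcl hX (hTX n)
      have h2 : #(cn G X t (T n S)) ≤ max #S lam := h1.trans (max_le ih (le_max_right _ _))
      exact (add_le_add ih h2).trans (Cardinal.add_eq_self (hlam.trans (le_max_right _ _))).le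
  refine ⟨fun x hx => mem_iUnion.2 ⟨0, hx⟩, iUnion_subset hTX, ?_, ?_, ?_⟩
  · have h0 : ℵ₀ ≤ max #S lam := hlam.trans (le_max_right _ _)
    have e1 : (⋃ n : ℕ, T n S) = ⋃ n : ULift.{u} ℕ, T n.down S := by
      ext x
      simp only [mem_iUnion]
      exact ⟨fun ⟨n, h⟩ => ⟨⟨n⟩, h⟩, fun ⟨n, h⟩ => ⟨n.down, h⟩⟩
    change #↥(⋃ n : ℕ, T n S) ≤ max #S lam
    rw [e1]
    refine (mk_iUnion_le (fun n : ULift.{u} ℕ => hTc n.down)).trans ?_
    have h2 : #(ULift.{u} ℕ) ≤ max #S lam := by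
      simpa using h0
    exact (mul_le_mul_left h2 _).trans (Cardinal.mul_eq_self h0).le
  · rintro x ⟨hx, A, h1, h2, h3⟩
    have h4 : ∀ i, ∃ n, A i ∈ T n S := fun i => mem_iUnion.1 (h1 i)
    choose n hn using h4
    have h5 : ∀ i, A i ∈ T (Finset.univ.sup n) S := fun i =>
      hmono _ _ S (Finset.le_sup (Finset.mem_univ i)) (hn i)
    refine mem_iUnion.2 ⟨Finset.univ.sup n + 1, ?_⟩
    rw [hTs]
    exact Or.inr ⟨hx, A, h5, h2, h3⟩
  · intro S' hS'
    have hmS : ∀ n, T n S' ⊆ T n S := by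
      intro n
      induction n with
      | zero => exact hS'
      | succ n ih =>
        rw [hTs n, hTs n]
        exact union_subset_union ih (cn_mono ih)
    exact iUnion_mono hmS

theorem few_nb {G : SimpleGraph V} {lam : Cardinal.{u}} (hlam : ℵ₀ ≤ lam)
    (hcl : ∀ K : Set V, G.IsClique K → #K ≤ lam) {X : Set V} {t : ℕ} {C : Set V}
    (hC : Clo G X t C) {x : V} (hx : x ∈ X) (hxC : x ∉ C) : #{y | y ∈ C ∧ G.Adj x y} ≤ lam := by
  by_contra hcon
  obtain ⟨g, hg1, hg2⟩ := dm hlam hcl (not_le.1 hcon)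
  exact hxC (hC ⟨hx, fun i => g i.1, fun i => (hg1 i.1).1,
    fun i j hij => hg2 i.1 j.1 (fun h => hij (Fin.ext h)), fun i => ((hg1 i.1).2).symm⟩)

/-- a well-founded ordering with at most `lam` smaller neighbours -/
theorem exists_rel {G : SimpleGraph V} {lam : Cardinal.{u}} (hlam : ℵ₀ ≤ lam)
    (hcl : ∀ K : Set V, G.IsClique K → #K ≤ lam) (t : ℕ) (c : Cardinal.{u}) :
    ∀ X : Set V, #X = c → ¬ Emb G X (completeBipartiteGraph (Fin t) ℕ) →
      ∃ r : V → V → Prop, WellFounded r ∧ (∀ x ∈ X, ∀ y ∈ X, x ≠ y → r x y ∨ r y x) ∧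
        ∀ x ∈ X, #{y | y ∈ X ∧ G.Adj x y ∧ r y x} ≤ lam := by
  classical
  induction c using WellFoundedLT.induction with
  | ind c ih =>
    intro X hXc hX
    by_cases hle : #X ≤ lam
    · refine ⟨WellOrderingRel, IsWellFounded.wf, ?_, ?_⟩
      · intro x _ y _ hxy
        rcases trichotomous_of WellOrderingRel x y with h | h | h
        · exact Or.inl h
        · exact absurd h hxy
        · exact Or.inr h
      · intro x _
        exact (Cardinal.mk_le_mk_of_subset (fun y hy => hy.1)).trans hle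
    · rw [not_le] at hle
      have ht : 0 < t := by
        rcases Nat.eq_zero_or_pos t with h0 | h0
        · exfalso
          subst h0
          obtain ⟨g, hg1, hg2⟩ := dm hlam hcl hle
          apply hX
          refine ⟨Sum.elim Fin.elim0 g, ?_, ?_, ?_⟩
          · rintro (i | m) (j | n) h
            · exact i.elim0
            · exact i.elim0
            · exact j.elim0
            · by_contra hne
              exact (hg2 m n (fun h2 => hne (congrArg _ h2))).1 h
          · rintro (i | m)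
            · exact i.elim0
            · exact hg1 m
          · rintro (i | m) (j | n)
            · exact i.elim0
            · exact i.elim0
            · exact j.elim0
            · simp only [Sum.elim_inr, completeBipartiteGraph_adj, Sum.isLeft_inr,
                Sum.isRight_inr]
              constructor
              · intro h
                exfalso
                by_cases hmn : m = n
                · subst hmn
                  exact G.loopless.irrefl _ h
                · exact (hg2 m n hmn).2 h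
              · simp
        · exact h0
      obtain ⟨cl, hclo⟩ := exists_clo hlam hcl hX
      have hinf : ℵ₀ ≤ #X := hlam.trans hle.le
      let I := (#X).ord.ToType
      have hI : #I = #X := Cardinal.mk_ord_toType _
      obtain ⟨e⟩ := Cardinal.eq.1 hI
      have hIne : Nonempty I := by
        rw [← Cardinal.mk_ne_zero_iff, hI]
        exact (Cardinal.aleph0_pos.trans_le hinf).ne'
      let S : I → Set V := fun i => {x | ∃ j ≤ i, (e j).1 = x}
      have hSX : ∀ i, S i ⊆ X := by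
        rintro i x ⟨j, -, rfl⟩
        exact (e j).2
      have hSc : ∀ i, #(S i) < #X := by
        intro i
        have h1 : #(S i) ≤ #(Iic i) := by
          refine Cardinal.mk_le_of_surjective (f := fun j : Iic i =>
            (⟨(e j.1).1, j.1, j.2, rfl⟩ : S i)) ?_
          rintro ⟨x, j, hj, rfl⟩
          exact ⟨⟨j, hj⟩, rfl⟩
        refine h1.trans_lt ?_
        have h2 : #(Iic i) ≤ #(Iio i) + 1 := by
          have : Iic i = Iio i ∪ {i} := by
            ext x
            simp [le_iff_lt_or_eq]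
          rw [this]
          refine (Cardinal.mk_union_le _ _).trans ?_
          simp
        exact h2.trans_lt (Cardinal.add_lt_of_lt hinf (Iio_lt i)
          (Cardinal.one_lt_aleph0.trans_le hinf))
      let C : I → Set V := fun i => cl (S i)
      have hCX : ∀ i, C i ⊆ X := fun i => (hclo (S i) (hSX i)).2.1
      have hCc : ∀ i, #(C i) < #X := fun i =>
        (hclo (S i) (hSX i)).2.2.1.trans_lt (max_lt (hSc i) hle)
      have hCm : ∀ i j, i ≤ j → C i ⊆ C j := fun i j hij =>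
        (hclo (S j) (hSX j)).2.2.2.2 (S i) (by
          rintro x ⟨k, hk, rfl⟩
          exact ⟨k, hk.trans hij, rfl⟩)
      have hex : ∀ x ∈ X, ∃ i, x ∈ C i := by
        intro x hx
        refine ⟨e.symm ⟨x, hx⟩, (hclo _ (hSX _)).1 ⟨e.symm ⟨x, hx⟩, le_rfl, ?_⟩⟩
        rw [e.apply_symm_apply]
      have wfI : WellFounded (fun a b : I => a < b) := wellFounded_lt
      let ρ : V → I := fun x => if h : ∃ i, x ∈ C i then wfI.min {i | x ∈ C i} h
        else Classical.arbitrary I
      have hρ1 : ∀ x ∈ X, x ∈ C (ρ x) := by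
        intro x hx
        have h := hex x hx
        have h1 : ρ x = wfI.min {i | x ∈ C i} h := dif_pos h
        rw [h1]
        exact wfI.min_mem {i | x ∈ C i} h
      have hρ2 : ∀ x ∈ X, ∀ i, i < ρ x → x ∉ C i := by
        intro x hx i hi hxi
        have h := hex x hx
        have h1 : ρ x = wfI.min {i | x ∈ C i} h := dif_pos h
        rw [h1] at hi
        exact wfI.not_lt_min {i | x ∈ C i} hxi hi
      let B : I → Set V := fun i => {x | x ∈ X ∧ ρ x = i}
      have hBC : ∀ i, B i ⊆ C i := by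
        rintro i x ⟨hx, rfl⟩
        exact hρ1 x hx
      have hB : ∀ i, ∃ r : V → V → Prop, WellFounded r ∧
          (∀ x ∈ B i, ∀ y ∈ B i, x ≠ y → r x y ∨ r y x) ∧
          ∀ x ∈ B i, #{y | y ∈ B i ∧ G.Adj x y ∧ r y x} ≤ lam := by
        intro i
        refine ih #(B i) ?_ (B i) rfl (fun h => hX (h.mono (fun x hx => hx.1)))
        rw [← hXc]
        exact (Cardinal.mk_le_mk_of_subset (hBC i)).trans_lt (hCc i)
      choose r hr1 hr2 hr3 using hB
      refine ⟨fun x y => ρ x < ρ y ∨ (ρ x = ρ y ∧ r (ρ y) x y), ?_, ?_, ?_⟩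
      · rw [WellFounded.wellFounded_iff_has_min]
        intro A hA
        obtain ⟨m, hm, hmin⟩ := wfI.has_min (ρ '' A) (hA.image ρ)
        obtain ⟨a, ha, hma⟩ := hm
        obtain ⟨b, hb, hbmin⟩ := (hr1 m).has_min {x | x ∈ A ∧ ρ x = m} ⟨a, ha, hma⟩
        refine ⟨b, hb.1, ?_⟩
        rintro x hx (h | ⟨h1, h2⟩)
        · rw [hb.2] at h
          exact hmin (ρ x) (mem_image_of_mem ρ hx) h
        · rw [hb.2] at h1 h2
          exact hbmin x ⟨hx, h1⟩ h2
      · intro x hx y hy hxy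
        rcases lt_trichotomy (ρ x) (ρ y) with h | h | h
        · exact Or.inl (Or.inl h)
        · rcases hr2 (ρ y) x ⟨hx, h⟩ y ⟨hy, rfl⟩ hxy with h1 | h1
          · exact Or.inl (Or.inr ⟨h, h1⟩)
          · exact Or.inr (Or.inr ⟨h.symm, by rw [h]; exact h1⟩)
        · exact Or.inr (Or.inl h)
      · intro x hx
        have hclosed : Clo G X t (⋃ i : Iio (ρ x), C i.1) := by
          rintro y ⟨hy, A, h1, h2, h3⟩
          have h4 : ∀ i, ∃ j : Iio (ρ x), A i ∈ C j.1 := fun i => mem_iUnion.1 (h1 i)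
          choose j hj using h4
          by_cases hne : (Iio (ρ x)).Nonempty
          · obtain ⟨j0, hj0⟩ := hne
            obtain ⟨J, hJ⟩ : ∃ J : Iio (ρ x), ∀ i, j i ≤ J := by
              have hN : Nonempty (Iio (ρ x)) := ⟨⟨j0, hj0⟩⟩
              obtain ⟨J, hJ⟩ := Finset.exists_le (Finset.univ.image j)
              exact ⟨J, fun i => hJ (j i) (Finset.mem_image_of_mem j (Finset.mem_univ i))⟩
            refine mem_iUnion.2 ⟨J, (hclo _ (hSX _)).2.2.2.1 ⟨hy, A, ?_, h2, h3⟩⟩
            intro i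
            exact hCm _ _ (hJ i) (hj i)
          · exact absurd ⟨_, (j ⟨0, ht⟩).2⟩ hne
        have hxn : x ∉ ⋃ i : Iio (ρ x), C i.1 := by
          intro h
          obtain ⟨i, hi⟩ := mem_iUnion.1 h
          exact hρ2 x hx i.1 i.2 hi
        have h1 := few_nb hlam hcl hclosed hx hxn
        have h2 := hr3 (ρ x) x ⟨hx, rfl⟩
        have h3 : {y | y ∈ X ∧ G.Adj x y ∧ (ρ y < ρ x ∨ (ρ y = ρ x ∧ r (ρ x) y x))} ⊆
            {y | y ∈ (⋃ i : Iio (ρ x), C i.1) ∧ G.Adj x y} ∪
            {y | y ∈ B (ρ x) ∧ G.Adj x y ∧ r (ρ x) y x} := by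
          rintro y ⟨hy, hxy, h | ⟨h, h'⟩⟩
          · exact Or.inl ⟨mem_iUnion.2 ⟨⟨ρ y, h⟩, hρ1 y hy⟩, hxy⟩
          · exact Or.inr ⟨⟨hy, h⟩, hxy, h'⟩
        refine (Cardinal.mk_le_mk_of_subset h3).trans ((Cardinal.mk_union_le _ _).trans ?_)
        exact (add_le_add h1 h2).trans (Cardinal.add_eq_self hlam).le

/-- few colours suffice when there is no induced complete bipartite graph -/
theorem bicl {G : SimpleGraph V} {Λ : Type u} (hbad : Bad G Λ) (hΛ : ℵ₀ ≤ #Λ) (t : ℕ)
    {X : Set V} (hX : ¬ Emb G X (completeBipartiteGraph (Fin t) ℕ)) : ColOn G X (TT Λ) := by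
  classical
  obtain ⟨r, hr1, hr2, hr3⟩ := exists_rel hΛ (fun K hK => clique_le hbad hΛ hK) t #X X rfl hX
  have := nonempty_TT Λ
  have hfree : ∀ F : Set (TT Λ), #F ≤ #Λ → ∃ c, c ∉ F := by
    intro F hF
    by_contra hcon
    push Not at hcon
    have h1 : F = Set.univ := eq_univ_of_forall hcon
    rw [h1, Cardinal.mk_univ, mk_TT] at hF
    exact absurd (Order.lt_succ #Λ) (not_lt.2 hF)
  let f : V → TT Λ := hr1.fix (fun x ih =>
    if h : ∃ c, c ∉ {c | ∃ y, ∃ hy : r y x, y ∈ X ∧ G.Adj x y ∧ ih y hy = c} then h.choose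
    else Classical.arbitrary _)
  have hf : ∀ x, f x = if h : ∃ c, c ∉ {c | ∃ y, ∃ _ : r y x, y ∈ X ∧ G.Adj x y ∧ f y = c}
      then h.choose else Classical.arbitrary _ := by
    intro x
    exact hr1.fix_eq _ x
  have hf2 : ∀ x ∈ X, ∀ y ∈ X, r y x → G.Adj x y → f y ≠ f x := by
    intro x hx y hy hyx hxy heq
    have h1 : ∃ c, c ∉ {c | ∃ y, ∃ _ : r y x, y ∈ X ∧ G.Adj x y ∧ f y = c} := by
      apply hfree
      refine le_trans ?_ (hr3 x hx)
      refine Cardinal.mk_le_of_surjective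
        (f := fun y : {y | y ∈ X ∧ G.Adj x y ∧ r y x} =>
          (⟨f y.1, y.1, y.2.2.2, y.2.1, y.2.2.1, rfl⟩ :
            {c | ∃ y, ∃ _ : r y x, y ∈ X ∧ G.Adj x y ∧ f y = c})) ?_
      rintro ⟨c, y, h1, h2, h3, rfl⟩
      exact ⟨⟨y, h2, h3, h1⟩, rfl⟩
    have h2 : f x = h1.choose := by
      rw [hf x, dif_pos h1]
    exact h1.choose_spec ⟨y, hyx, hy, hxy, heq.trans h2⟩
  refine ⟨f, ?_⟩
  intro x hx y hy hxy h
  rcases hr2 x hx y hy hxy.ne with h1 | h1
  · exact hf2 y hy x hx h1 hxy.symm h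
  · exact hf2 x hx y hy h1 hxy h.symm

end Pool.Agent.Helper94.TF
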