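import Pool.Agent.Helper94.TF.Cops

/-!
# The robber is caught, or there is a large clique, or there are many induced rays
-/

set_option autoImplicit false

open Cardinal Set

namespace Pool.Agent.Helper94.TF

open Pool.Agent.Helper25.TF

universe u

variable {V : Type u} [Nonempty V]

theorem cop_mem {G : SimpleGraph V} {F : Set V} {z : V} {o : Ordinal.{u}} (hz : z ∈ F)
    (h : ∀ ζ < o, (st G F z ζ).2 ≠ z) : (st G F z o).2 ∈ F := by
  have I := inv hz o h
  rcases I.cop with h1 | ⟨ξ, h1, -, h2, -, -⟩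
  · exact I.sub h1.1
  · have hξ : ξ < o := by
      rw [h1]
      exact Order.lt_add_one_iff.2 le_rfl
    exact (inv hz ξ (fun ζ hζ => h ζ (hζ.trans hξ))).sub h2

theorem rel1 {G : SimpleGraph V} {F : Set V} {z : V} {ξ η : Ordinal.{u}} (hz : z ∈ F)
    (h : ∀ ζ < η, (st G F z ζ).2 ≠ z) (hξη : ξ < η) (hb : G.Adj (st G F z ξ).2 z) :
    G.Adj (st G F z ξ).2 (st G F z η).2 := by
  have I := inv hz η h
  rcases I.cop with h1 | ⟨ζ, h1, h2, h3, -, -⟩
  · exact (I.down ξ hξη).2.1 hb _ h1.1
  · have hζ : ζ < η := by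
      rw [h1]
      exact Order.lt_add_one_iff.2 le_rfl
    have hξζ : ξ < ζ := by
      rw [h1] at hξη
      rcases (Order.lt_add_one_iff.1 hξη).lt_or_eq with h4 | h4
      · exact h4
      · subst h4
        exact absurd hb h2
    exact ((inv hz ζ (fun ε hε => h ε (hε.trans hζ))).down ξ hξζ).2.1 hb _ h3

theorem rel0 {G : SimpleGraph V} {F : Set V} {z : V} {ξ η : Ordinal.{u}} (hz : z ∈ F)
    (h : ∀ ζ < η, (st G F z ζ).2 ≠ z) (hξη : ξ < η) (hb : ¬ G.Adj (st G F z ξ).2 z) :
    (G.Adj (st G F z ξ).2 (st G F z η).2 ↔ η = ξ + 1) := by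
  have I := inv hz η h
  rcases I.cop with h1 | ⟨ζ, h1, h2, h3, h5, -⟩
  · constructor
    · intro h6
      exact absurd h6 ((I.down ξ hξη).2.2 hb _ h1.1).2
    · intro h6
      exact absurd (h1.2 ξ h6) hb
  · have hζ : ζ < η := by
      rw [h1]
      exact Order.lt_add_one_iff.2 le_rfl
    have hξη' := hξη
    rw [h1] at hξη'
    rcases (Order.lt_add_one_iff.1 hξη').lt_or_eq with h4 | h4
    · constructor
      · intro h6
        exact absurd h6 ((((inv hz ζ (fun ε hε => h ε (hε.trans hζ))).down ξ h4).2.2 hb _ h3)).2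
      · intro h6
        rw [h1] at h6
        have : ζ = ξ := by simpa using h6
        exact absurd this h4.ne'
    · subst h4
      exact ⟨fun _ => h1, fun _ => h5⟩

/-- adjacent robbers with the same history have the same territories -/
theorem same {G : SimpleGraph V} {F : Set V} {z z' : V} (hz : z ∈ F) (hz' : z' ∈ F)
    (hadj : G.Adj z z') (o : Ordinal.{u}) (h : ∀ ξ < o, (st G F z ξ).2 ≠ z ∧
      (st G F z' ξ).2 ≠ z' ∧ (G.Adj (st G F z ξ).2 z ↔ G.Adj (st G F z' ξ).2 z')) :
    st G F z o = st G F z' o := by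
  induction o using Ordinal.limitRecOn with
  | zero => rw [st_zero, st_zero, comp_eq hz hz' hadj]
  | add_one o ih =>
    have hlt : o < o + 1 := Order.lt_add_one_iff.2 le_rfl
    have E := ih (fun ξ hξ => h ξ (hξ.trans hlt))
    have I := inv hz o (fun ξ hξ => (h ξ (hξ.trans hlt)).1)
    have I' := inv hz' o (fun ξ hξ => (h ξ (hξ.trans hlt)).2.1)
    have ho := h o hlt
    have m' := I'.mem
    rw [← E] at ho m'
    rw [st_succ, st_succ, ← E]
    by_cases hb : G.Adj (st G F z o).2 z
    · have hb' : G.Adj (st G F z o).2 z' := ho.2.2.1 hb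
      have e : comp G ((st G F z o).1 ∩ {x | G.Adj (st G F z o).2 x}) z =
          comp G ((st G F z o).1 ∩ {x | G.Adj (st G F z o).2 x}) z' :=
        comp_eq ⟨I.mem, hb⟩ ⟨m', hb'⟩ hadj
      unfold step
      rw [if_pos hb, if_pos hb', e]
    · have hb' : ¬ G.Adj (st G F z o).2 z' := fun h1 => hb (ho.2.2.2 h1)
      have e : comp G ((st G F z o).1 ∩ {x | x ≠ (st G F z o).2 ∧ ¬ G.Adj (st G F z o).2 x}) z =
          comp G ((st G F z o).1 ∩ {x | x ≠ (st G F z o).2 ∧ ¬ G.Adj (st G F z o).2 x}) z' :=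
        comp_eq ⟨I.mem, ho.1.symm, hb⟩ ⟨m', ho.2.1.symm, hb'⟩ hadj
      unfold step
      rw [if_neg hb, if_neg hb', e]
  | limit o ho ih =>
    have E : ∀ ξ < o, st G F z ξ = st G F z' ξ :=
      fun ξ hξ => ih ξ hξ (fun η hη => h η (hη.trans hξ))
    have e1 : {w | ∀ o' < o, w ∈ (st G F z o').1} = {w | ∀ o' < o, w ∈ (st G F z' o').1} := by
      ext w
      constructor
      · intro hw ξ hξ
        rw [← E ξ hξ]
        exact hw ξ hξ
      · intro hw ξ hξ
        rw [E ξ hξ]
        exact hw ξ hξ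
    have e2 : comp G {w | ∀ o' < o, w ∈ (st G F z' o').1} z =
        comp G {w | ∀ o' < o, w ∈ (st G F z' o').1} z' := by
      refine comp_eq ?_ ?_ hadj
      · intro ξ hξ
        rw [← E ξ hξ]
        exact (inv hz ξ (fun η hη => (h η (hη.trans hξ)).1)).mem
      · intro ξ hξ
        exact (inv hz' ξ (fun η hη => (h η (hη.trans hξ)).2.1)).mem
    rw [st_limit _ _ _ _ ho, st_limit _ _ _ _ ho, e1, e2]

theorem idx_inj {α i j : Ordinal.{u}} {n m : ℕ}
    (h : α + Ordinal.omega0 * i + n = α + Ordinal.omega0 * j + m) : i = j ∧ n = m := by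
  have h0 : Ordinal.omega0.{u} ≠ 0 := Ordinal.omega0_ne_zero
  have h1 : Ordinal.omega0 * i + n = Ordinal.omega0 * j + m := by
    rw [add_assoc, add_assoc] at h
    exact add_left_cancel h
  have hd : ∀ (k : Ordinal.{u}) (r : ℕ), (Ordinal.omega0 * k + r) / Ordinal.omega0 = k := by
    intro k r
    rw [Ordinal.mul_add_div _ h0, Ordinal.div_eq_zero_of_lt (Ordinal.natCast_lt_omega0 r),
      add_zero]
  have hij : i = j := by
    rw [← hd i n, ← hd j m, h1]
  subst hij
  have h2 := add_left_cancel h1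
  exact ⟨rfl, by exact_mod_cast h2⟩

/-- the robber at `z` is caught before stage `(#Λ)⁺` -/
theorem caught {G : SimpleGraph V} {Λ C : Type u} (hbad : Bad G Λ) (hΛ : ℵ₀ ≤ #Λ) {F : Set V}
    {z : V} (hz : z ∈ F)
    (hrays : ∀ p : TT Λ → ℕ → V, (∀ i n, p i n ∈ F) →
      (∀ i n j m, G.Adj (p i n) (p j m) ↔ i = j ∧ (m = n + 1 ∨ n = m + 1)) →
      ∃ i, ColOn G {x | x ∈ F ∧ ∀ j < i, ∀ n, ¬ G.Adj (p j n) x} C) :
    ∃ o < (Order.succ #Λ).ord, (st G F z o).2 = z ∨ ColOn G (st G F z o).1 C := by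
  classical
  by_contra hcon
  push Not at hcon
  set Ω := (Order.succ #Λ).ord with hΩ
  have hsucc : ℵ₀ ≤ Order.succ #Λ := hΛ.trans (Order.le_succ _)
  have hv : ∀ o < Ω, ∀ ξ < o, (st G F z ξ).2 ≠ z := fun o ho ξ hξ => (hcon ξ (hξ.trans ho)).1
  have hne := nonempty_TT Λ
  by_cases hB : ∃ s : TT Λ, ∀ t, s < t → ¬ G.Adj (st G F z t.toOrd).2 z
  · -- from some stage on there are only non-adjacent rounds
    obtain ⟨s, hs⟩ := hB
    have hs' : ∀ o < Ω, (s.toOrd : Ordinal.{u}) < o → ¬ G.Adj (st G F z o).2 z := by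
      intro o ho hso
      have h1 := hs (Ordinal.ToType.mk ⟨o, ho⟩) (Ordinal.ToType.mk.symm.lt_iff_lt.1 (by
        rw [OrderIso.symm_apply_apply]
        exact hso))
      have e : ((Ordinal.ToType.mk (⟨o, ho⟩ : Set.Iio Ω)).toOrd : Set.Iio Ω) = ⟨o, ho⟩ :=
        OrderIso.symm_apply_apply _ _
      rw [e] at h1
      exact h1
    set α : Ordinal.{u} := (s.toOrd : Ordinal.{u}) + 1 with hα
    have hαΩ : α < Ω := (Cardinal.isSuccLimit_ord hsucc).add_one_lt s.toOrd.2
    have hωΩ : Ordinal.omega0.{u} ≤ Ω := by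
      rw [← Cardinal.ord_aleph0]
      exact Cardinal.ord_le_ord.2 hsucc
    have hωΩ' : Ordinal.omega0.{u} < Ω := by
      rw [← Cardinal.ord_aleph0]
      exact Cardinal.ord_lt_ord.2 (hΛ.trans_lt (Order.lt_succ _))
    have hidx : ∀ (i : Ordinal.{u}) (n : ℕ), i < Ω → α + Ordinal.omega0 * i + n < Ω := by
      intro i n hi
      have h1 : Ordinal.omega0 * i < Ω := Ordinal.isPrincipal_mul_ord hsucc hωΩ' hi
      exact Ordinal.isPrincipal_add_ord hsucc (Ordinal.isPrincipal_add_ord hsucc hαΩ h1)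
        ((Ordinal.natCast_lt_omega0 n).trans hωΩ')
    have hgt : ∀ (i : Ordinal.{u}) (n : ℕ), (s.toOrd : Ordinal.{u}) <
        α + Ordinal.omega0 * i + n := by
      intro i n
      calc (s.toOrd : Ordinal.{u}) < α := Order.lt_add_one_iff.2 le_rfl
        _ ≤ α + Ordinal.omega0 * i := le_self_add
        _ ≤ α + Ordinal.omega0 * i + n := le_self_add
    let p : TT Λ → ℕ → V := fun i n => (st G F z (α + Ordinal.omega0 * i.toOrd + n)).2
    have hp : ∀ (i : TT Λ) (n : ℕ), α + Ordinal.omega0 * (i.toOrd : Ordinal.{u}) + n < Ω :=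
      fun i n => hidx _ n i.toOrd.2
    obtain ⟨i, hi⟩ := hrays p (fun i n => cop_mem hz (hv _ (hp i n))) (by
      have key : ∀ (i j : TT Λ) (n m : ℕ),
          α + Ordinal.omega0 * (i.toOrd : Ordinal.{u}) + n <
            α + Ordinal.omega0 * (j.toOrd : Ordinal.{u}) + m →
          (G.Adj (p i n) (p j m) ↔ i = j ∧ (m = n + 1 ∨ n = m + 1)) := by
        intro i j n m hlt
        have h1 := rel0 hz (hv _ (hp j m)) hlt (hs' _ (hp i n) (hgt _ n))
        rw [show p i n = (st G F z (α + Ordinal.omega0 * i.toOrd + n)).2 from rfl,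
          show p j m = (st G F z (α + Ordinal.omega0 * j.toOrd + m)).2 from rfl, h1]
        constructor
        · intro h2
          have h3 : α + Ordinal.omega0 * (j.toOrd : Ordinal.{u}) + m =
              α + Ordinal.omega0 * (i.toOrd : Ordinal.{u}) + ((n + 1 : ℕ) : Ordinal.{u}) := by
            rw [h2]
            push_cast
            rw [add_assoc]
          obtain ⟨h4, h5⟩ := idx_inj h3
          refine ⟨?_, Or.inl h5⟩
          have h6 : j.toOrd = i.toOrd := Subtype.ext h4
          exact (Ordinal.ToType.mk.symm.injective h6).symm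
        · rintro ⟨rfl, h2 | h2⟩
          · subst h2
            simp only [Nat.cast_add, Nat.cast_one, add_assoc]
          · exfalso
            subst h2
            push_cast at hlt
            rw [← add_assoc] at hlt
            exact absurd hlt (not_lt_of_ge le_self_add)
      intro i n j m
      rcases lt_trichotomy (α + Ordinal.omega0 * (i.toOrd : Ordinal.{u}) + n)
        (α + Ordinal.omega0 * (j.toOrd : Ordinal.{u}) + m) with h1 | h1 | h1
      · exact key i j n m h1
      · obtain ⟨h2, h3⟩ := idx_inj h1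
        have h4 : i = j := Ordinal.ToType.mk.symm.injective (Subtype.ext h2)
        subst h4
        subst h3
        constructor
        · intro h5
          exact absurd h5 (G.loopless.irrefl _)
        · rintro ⟨-, h5 | h5⟩ <;> omega
      · rw [G.adj_comm, key j i m n h1]
        constructor
        · rintro ⟨h2, h3⟩
          exact ⟨h2.symm, h3.symm⟩
        · rintro ⟨h2, h3⟩
          exact ⟨h2.symm, h3.symm⟩)
    refine (hcon _ (hp i 0)).2 (hi.mono ?_)
    intro x hx
    have I := inv hz _ (hv _ (hp i 0))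
    refine ⟨I.sub hx, ?_⟩
    intro j hj n
    have hj' : (j.toOrd : Ordinal.{u}) < i.toOrd := by
      have := Ordinal.ToType.mk.symm.lt_iff_lt.2 hj
      exact this
    have h1 : α + Ordinal.omega0 * (j.toOrd : Ordinal.{u}) + n <
        α + Ordinal.omega0 * (i.toOrd : Ordinal.{u}) + ((0 : ℕ) : Ordinal.{u}) := by
      rw [Nat.cast_zero, add_zero, add_assoc]
      refine (add_lt_add_iff_left α).2 ?_
      calc Ordinal.omega0 * (j.toOrd : Ordinal.{u}) + n
          < Ordinal.omega0 * (j.toOrd : Ordinal.{u}) + Ordinal.omega0 :=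
            (add_lt_add_iff_left _).2 (Ordinal.natCast_lt_omega0 n)
        _ = Ordinal.omega0 * ((j.toOrd : Ordinal.{u}) + 1) := by rw [mul_add, mul_one]
        _ ≤ Ordinal.omega0 * (i.toOrd : Ordinal.{u}) := by
            gcongr
            exact Order.add_one_le_iff.2 hj'
    exact ((I.down _ h1).2.2 (hs' _ (hp j n) (hgt _ n)) x hx).2
  · -- a large clique
    push Not at hB
    let B : Set (TT Λ) := {t | G.Adj (st G F z t.toOrd).2 z}
    have hB' : ∀ s : TT Λ, ∃ t ∈ B, s < t := fun s => by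
      obtain ⟨t, h1, h2⟩ := hB s
      exact ⟨t, h2, h1⟩
    have hinf : B.Infinite := Set.infinite_of_forall_exists_gt hB'
    have : Infinite B := hinf.to_subtype
    have hBne : Nonempty B := inferInstance
    choose nx hnx1 hnx2 using hB'
    have hT : ∀ f : B → Λ, ∃ j, ∀ s, ∃ t, s < t ∧ f t = j := by
      intro f
      obtain ⟨j, hj⟩ := TT_fibre Λ hΛ (fun t => f ⟨nx t, hnx1 t⟩)
      refine ⟨j, fun s => ?_⟩
      obtain ⟨t, h1, h2⟩ := hj s.1
      exact ⟨⟨nx t, hnx1 t⟩, h1.trans (hnx2 t), h2⟩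
    have hcard : #(B × B × B) ≤ #B := by
      have h0 : ℵ₀ ≤ #B := Cardinal.aleph0_le_mk B
      simp only [Cardinal.mk_prod, Cardinal.lift_id]
      rw [Cardinal.mul_eq_self h0, Cardinal.mul_eq_self h0]
    obtain ⟨e⟩ := Cardinal.le_def _ _ |>.1 hcard
    refine no_clique hbad (specker B) (specker_free _) (specker_col hT)
      (fun i => (st G F z (e i).1.toOrd).2) ?_
    have key : ∀ a b : B, a < b → G.Adj (st G F z a.1.toOrd).2 (st G F z b.1.toOrd).2 := by
      intro a b hab
      have hab' : (a.1.toOrd : Ordinal.{u}) < b.1.toOrd := Ordinal.ToType.mk.symm.lt_iff_lt.2 hab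
      exact rel1 hz (hv _ b.1.toOrd.2) hab' a.2
    intro p q hpq
    rcases lt_trichotomy (e p) (e q) with h1 | h1 | h1
    · exact key _ _ h1
    · exact absurd (e.injective h1) hpq
    · exact (key _ _ h1).symm

end Pool.Agent.Helper94.TF
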