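import Pool.Agent.Helper25.TF.Main

/-!
# Components inside vertex sets and the transfinite pursuit of one vertex
-/

set_option autoImplicit false

open Cardinal Set

namespace Pool.Agent.Helper94.TF

open Pool.Agent.Helper25.TF

universe u

variable {V : Type u}

/-- reachable inside the vertex set `A` -/
def Rch (G : SimpleGraph V) (A : Set V) : V → V → Prop :=
  Relation.ReflTransGen (fun a b => a ∈ A ∧ b ∈ A ∧ G.Adj a b)

/-- the component of `z` in the graph induced on `A` -/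
def comp (G : SimpleGraph V) (A : Set V) (z : V) : Set V := {w | w ∈ A ∧ Rch G A z w}

/-- any two vertices of `D` are joined inside `D` -/
def Conn (G : SimpleGraph V) (D : Set V) : Prop := ∀ a ∈ D, ∀ b ∈ D, Rch G D a b

theorem Rch.symm {G : SimpleGraph V} {A : Set V} {a b : V} (h : Rch G A a b) : Rch G A b a := by
  induction h with
  | refl => exact Relation.ReflTransGen.refl
  | tail _ hbc ih => exact Relation.ReflTransGen.head ⟨hbc.2.1, hbc.1, hbc.2.2.symm⟩ ih

theorem comp_sub {G : SimpleGraph V} {A : Set V} {z : V} : comp G A z ⊆ A := fun _ h => h.1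

theorem mem_comp {G : SimpleGraph V} {A : Set V} {z : V} (hz : z ∈ A) : z ∈ comp G A z :=
  ⟨hz, Relation.ReflTransGen.refl⟩

theorem comp_eq {G : SimpleGraph V} {A : Set V} {z w : V} (hz : z ∈ A) (hw : w ∈ A)
    (h : G.Adj z w) : comp G A z = comp G A w := by
  ext x
  constructor
  · rintro ⟨h1, h2⟩
    exact ⟨h1, Relation.ReflTransGen.head ⟨hw, hz, h.symm⟩ h2⟩
  · rintro ⟨h1, h2⟩
    exact ⟨h1, Relation.ReflTransGen.head ⟨hz, hw, h⟩ h2⟩

theorem rch_comp {G : SimpleGraph V} {A : Set V} {z w : V} (hz : z ∈ A) (hw : Rch G A z w) :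
    w ∈ comp G A z ∧ Rch G (comp G A z) z w := by
  induction hw with
  | refl => exact ⟨mem_comp hz, Relation.ReflTransGen.refl⟩
  | tail hab hbc ih =>
    have hc := (⟨hbc.2.1, Relation.ReflTransGen.tail hab hbc⟩ : _ ∈ comp G A z)
    exact ⟨hc, Relation.ReflTransGen.tail ih.2 ⟨ih.1, hc, hbc.2.2⟩⟩

theorem conn_comp {G : SimpleGraph V} {A : Set V} {z : V} (hz : z ∈ A) :
    Conn G (comp G A z) := fun _ ha _ hb =>
  Relation.ReflTransGen.trans (rch_comp hz ha.2).2.symm (rch_comp hz hb.2).2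

theorem mem_comp_of_adj {G : SimpleGraph V} {A : Set V} {z a b : V} (ha : a ∈ comp G A z)
    (hb : b ∈ A) (h : G.Adj a b) : b ∈ comp G A z :=
  ⟨hb, Relation.ReflTransGen.tail ha.2 ⟨ha.1, hb, h⟩⟩

theorem exit {G : SimpleGraph V} {D S : Set V} {a b : V} (h : Rch G D a b) (ha : a ∈ S)
    (hb : b ∉ S) : ∃ u w, u ∈ S ∧ w ∉ S ∧ w ∈ D ∧ G.Adj u w := by
  induction h with
  | refl => exact absurd ha hb
  | @tail b c _ hbc ih =>
    by_cases hm : b ∈ S
    · exact ⟨b, c, hm, hb, hbc.2.1, hbc.2.2⟩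
    · exact ih hm

/-- the next vertex of the path -/
theorem lnk_exists {G : SimpleGraph V} {D : Set V} {v z : V} (hD : Conn G D) (hz : z ∈ D)
    (hzv : z ≠ v) (hadj : ¬ G.Adj v z) (hv : v ∈ D ∨ ∃ u ∈ D, G.Adj v u) :
    ∃ w, w ∈ D ∧ G.Adj v w ∧ ∃ u ∈ comp G (D ∩ {x | x ≠ v ∧ ¬ G.Adj v x}) z, G.Adj w u := by
  have hzS : z ∈ comp G (D ∩ {x | x ≠ v ∧ ¬ G.Adj v x}) z := mem_comp ⟨hz, hzv, hadj⟩
  obtain ⟨t, htD, htS⟩ : ∃ t ∈ D, t ∉ comp G (D ∩ {x | x ≠ v ∧ ¬ G.Adj v x}) z := by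
    rcases hv with hv | ⟨u, hu, hvu⟩
    · exact ⟨v, hv, fun h => h.1.2.1 rfl⟩
    · exact ⟨u, hu, fun h => h.1.2.2 hvu⟩
  obtain ⟨u, w, hu, hw, hwD, huw⟩ := exit (hD z hz t htD) hzS htS
  have h1 : G.Adj v w := by
    by_contra hcon
    by_cases hwv : w = v
    · subst hwv
      exact hu.1.2.2 huw.symm
    · exact hw (mem_comp_of_adj hu ⟨hwD, hwv, hcon⟩ huw)
  exact ⟨w, hwD, h1, u, hu, huw.symm⟩

section Machine

variable [Nonempty V]

/-- a vertex of `D` -/
noncomputable def pick (D : Set V) : V := Classical.epsilon (fun v => v ∈ D)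

/-- a vertex of `D` adjacent to `v` and to a vertex of `D'` -/
noncomputable def lnk (G : SimpleGraph V) (D : Set V) (v : V) (D' : Set V) : V :=
  Classical.epsilon (fun w => w ∈ D ∧ G.Adj v w ∧ ∃ u ∈ D', G.Adj w u)

theorem pick_mem {D : Set V} {z : V} (hz : z ∈ D) : pick D ∈ D :=
  Classical.epsilon_spec (p := fun v => v ∈ D) ⟨z, hz⟩

theorem lnk_spec {G : SimpleGraph V} {D : Set V} {v : V} {D' : Set V}
    (h : ∃ w, w ∈ D ∧ G.Adj v w ∧ ∃ u ∈ D', G.Adj w u) :
    lnk G D v D' ∈ D ∧ G.Adj v (lnk G D v D') ∧ ∃ u ∈ D', G.Adj (lnk G D v D') u :=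
  Classical.epsilon_spec (p := fun w => w ∈ D ∧ G.Adj v w ∧ ∃ u ∈ D', G.Adj w u) h

open Classical in
/-- one round -/
noncomputable def step (G : SimpleGraph V) (z : V) (s : Set V × V) : Set V × V :=
  if G.Adj s.2 z then
    (comp G (s.1 ∩ {x | G.Adj s.2 x}) z, pick (comp G (s.1 ∩ {x | G.Adj s.2 x}) z))
  else
    (comp G (s.1 ∩ {x | x ≠ s.2 ∧ ¬ G.Adj s.2 x}) z,
      lnk G s.1 s.2 (comp G (s.1 ∩ {x | x ≠ s.2 ∧ ¬ G.Adj s.2 x}) z))

/-- the territory and the cop vertex at every stage, when the robber stays at `z` -/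
noncomputable def st (G : SimpleGraph V) (F : Set V) (z : V) (o : Ordinal.{u}) : Set V × V :=
  Ordinal.limitRecOn (motive := fun _ => Set V × V) o
    (comp G F z, pick (comp G F z)) (fun _ s => step G z s)
    (fun o _ ih => (comp G {w | ∀ o' (h : o' < o), w ∈ (ih o' h).1} z,
      pick (comp G {w | ∀ o' (h : o' < o), w ∈ (ih o' h).1} z)))

theorem st_zero (G : SimpleGraph V) (F : Set V) (z : V) :
    st G F z 0 = (comp G F z, pick (comp G F z)) := by
  simp [st]

theorem st_succ (G : SimpleGraph V) (F : Set V) (z : V) (o : Ordinal.{u}) :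
    st G F z (o + 1) = step G z (st G F z o) := by
  simp [st]

theorem st_limit (G : SimpleGraph V) (F : Set V) (z : V) (o : Ordinal.{u})
    (ho : Order.IsSuccLimit o) :
    st G F z o = (comp G {w | ∀ o' < o, w ∈ (st G F z o').1} z,
      pick (comp G {w | ∀ o' < o, w ∈ (st G F z o').1} z)) := by
  unfold st
  rw [Ordinal.limitRecOn_limit _ _ _ _ ho]

/-- what is true at stage `o` as long as the robber is not caught -/
structure Inv (G : SimpleGraph V) (F : Set V) (z : V) (o : Ordinal.{u}) : Prop where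
  mem : z ∈ (st G F z o).1
  conn : Conn G (st G F z o).1
  sub : (st G F z o).1 ⊆ F
  down : ∀ ξ < o, (st G F z o).1 ⊆ (st G F z ξ).1 ∧
    (G.Adj (st G F z ξ).2 z → ∀ x ∈ (st G F z o).1, G.Adj (st G F z ξ).2 x) ∧
    (¬ G.Adj (st G F z ξ).2 z → ∀ x ∈ (st G F z o).1,
      x ≠ (st G F z ξ).2 ∧ ¬ G.Adj (st G F z ξ).2 x)
  cop : ((st G F z o).2 ∈ (st G F z o).1 ∧ ∀ ξ, o = ξ + 1 → G.Adj (st G F z ξ).2 z) ∨
    ∃ ξ, o = ξ + 1 ∧ ¬ G.Adj (st G F z ξ).2 z ∧ (st G F z o).2 ∈ (st G F z ξ).1 ∧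
      G.Adj (st G F z ξ).2 (st G F z o).2 ∧ ∃ u ∈ (st G F z o).1, G.Adj (st G F z o).2 u

theorem inv {G : SimpleGraph V} {F : Set V} {z : V} (hz : z ∈ F) (o : Ordinal.{u})
    (h : ∀ ξ < o, (st G F z ξ).2 ≠ z) : Inv G F z o := by
  induction o using Ordinal.limitRecOn with
  | zero =>
    have e := st_zero G F z
    refine ⟨?_, ?_, ?_, ?_, Or.inl ⟨?_, ?_⟩⟩
    · rw [e]
      exact mem_comp hz
    · rw [e]
      exact conn_comp hz
    · rw [e]
      exact comp_sub
    · intro ξ hξ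
      exact absurd hξ (by simp)
    · rw [e]
      exact pick_mem (mem_comp hz)
    · intro ξ hξ
      exact absurd hξ.symm (by simp)
  | add_one o ih =>
    have I := ih (fun ξ hξ => h ξ (hξ.trans (Order.lt_add_one_iff.2 le_rfl)))
    have hne : (st G F z o).2 ≠ z := h o (Order.lt_add_one_iff.2 le_rfl)
    have e := st_succ G F z o
    by_cases hb : G.Adj (st G F z o).2 z
    · have e2 : step G z (st G F z o) =
          (comp G ((st G F z o).1 ∩ {x | G.Adj (st G F z o).2 x}) z,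
            pick (comp G ((st G F z o).1 ∩ {x | G.Adj (st G F z o).2 x}) z)) := by
        unfold step
        rw [if_pos hb]
      rw [e2] at e
      have hzA : z ∈ (st G F z o).1 ∩ {x | G.Adj (st G F z o).2 x} := ⟨I.mem, hb⟩
      refine ⟨?_, ?_, ?_, ?_, Or.inl ⟨?_, ?_⟩⟩
      · rw [e]
        exact mem_comp hzA
      · rw [e]
        exact conn_comp hzA
      · rw [e]
        exact (comp_sub.trans inter_subset_left).trans I.sub
      · intro ξ hξ
        have hsub : (st G F z (o + 1)).1 ⊆ (st G F z o).1 := by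
          rw [e]
          exact comp_sub.trans inter_subset_left
        rcases (Order.lt_add_one_iff.1 hξ).lt_or_eq with h1 | h1
        · have h2 := I.down ξ h1
          exact ⟨hsub.trans h2.1, fun h3 x hx => h2.2.1 h3 x (hsub hx),
            fun h3 x hx => h2.2.2 h3 x (hsub hx)⟩
        · subst h1
          refine ⟨hsub, fun _ x hx => ?_, fun h3 => absurd hb h3⟩
          rw [e] at hx
          exact (comp_sub hx).2
      · rw [e]
        exact pick_mem (mem_comp hzA)
      · intro ξ hξ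
        have : o = ξ := by simpa using hξ
        rw [← this]
        exact hb
    · have e2 : step G z (st G F z o) =
          (comp G ((st G F z o).1 ∩ {x | x ≠ (st G F z o).2 ∧ ¬ G.Adj (st G F z o).2 x}) z,
            lnk G (st G F z o).1 (st G F z o).2
              (comp G ((st G F z o).1 ∩
                {x | x ≠ (st G F z o).2 ∧ ¬ G.Adj (st G F z o).2 x}) z)) := by
        unfold step
        rw [if_neg hb]
      rw [e2] at e
      have hzA : z ∈ (st G F z o).1 ∩ {x | x ≠ (st G F z o).2 ∧ ¬ G.Adj (st G F z o).2 x} :=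
        ⟨I.mem, hne.symm, hb⟩
      have hcop : (st G F z o).2 ∈ (st G F z o).1 ∨
          ∃ u ∈ (st G F z o).1, G.Adj (st G F z o).2 u := by
        rcases I.cop with h1 | ⟨ξ, _, _, _, _, h2⟩
        · exact Or.inl h1.1
        · exact Or.inr h2
      have hl := lnk_spec (lnk_exists I.conn I.mem hne.symm hb hcop)
      refine ⟨?_, ?_, ?_, ?_, Or.inr ⟨o, rfl, hb, ?_, ?_, ?_⟩⟩
      · rw [e]
        exact mem_comp hzA
      · rw [e]
        exact conn_comp hzA
      · rw [e]
        exact (comp_sub.trans inter_subset_left).trans I.sub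
      · intro ξ hξ
        have hsub : (st G F z (o + 1)).1 ⊆ (st G F z o).1 := by
          rw [e]
          exact comp_sub.trans inter_subset_left
        rcases (Order.lt_add_one_iff.1 hξ).lt_or_eq with h1 | h1
        · have h2 := I.down ξ h1
          exact ⟨hsub.trans h2.1, fun h3 x hx => h2.2.1 h3 x (hsub hx),
            fun h3 x hx => h2.2.2 h3 x (hsub hx)⟩
        · subst h1
          refine ⟨hsub, fun h3 => absurd h3 hb, fun _ x hx => ?_⟩
          rw [e] at hx
          exact (comp_sub hx).2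
      · rw [e]
        exact hl.1
      · rw [e]
        exact hl.2.1
      · rw [e]
        exact hl.2.2
  | limit o ho ih =>
    have e := st_limit G F z o ho
    have I : ∀ ξ < o, Inv G F z ξ := fun ξ hξ => ih ξ hξ (fun η hη => h η (hη.trans hξ))
    have hzA : z ∈ {w | ∀ o' < o, w ∈ (st G F z o').1} := fun ξ hξ => (I ξ hξ).mem
    have hsub : ∀ ξ < o, (st G F z o).1 ⊆ (st G F z ξ).1 := by
      intro ξ hξ x hx
      rw [e] at hx
      exact comp_sub hx ξ hξ
    refine ⟨?_, ?_, ?_, ?_, Or.inl ⟨?_, ?_⟩⟩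
    · rw [e]
      exact mem_comp hzA
    · rw [e]
      exact conn_comp hzA
    · exact (hsub 0 ho.bot_lt).trans (I 0 ho.bot_lt).sub
    · intro ξ hξ
      have h1 : ξ + 1 < o := ho.add_one_lt hξ
      have h2 := (I (ξ + 1) h1).down ξ (Order.lt_add_one_iff.2 le_rfl)
      have h3 := hsub (ξ + 1) h1
      exact ⟨hsub ξ hξ, fun h4 x hx => h2.2.1 h4 x (h3 hx), fun h4 x hx => h2.2.2 h4 x (h3 hx)⟩
    · rw [e]
      exact pick_mem (mem_comp hzA)
    · intro ξ hξ
      exfalso
      rw [hξ] at ho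
      exact ho.isSuccPrelimit ξ (Order.covBy_add_one ξ)

end Machine

end Pool.Agent.Helper94.TF
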