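import Mathlib

/-!
# A class of countable graphs
-/

set_option autoImplicit false

namespace Pool.Agent.Helper94.TF

/-- The disjoint union of a sequence of graphs. -/
def dunion {β : ℕ → Type} (H : ∀ n, SimpleGraph (β n)) : SimpleGraph (Σ n, β n) where
  Adj x y := ∃ n, ∃ a b : β n, x = ⟨n, a⟩ ∧ y = ⟨n, b⟩ ∧ (H n).Adj a b
  symm := ⟨fun _ _ ⟨n, a, b, h1, h2, h3⟩ => ⟨n, b, a, h2, h1, h3.symm⟩⟩
  loopless := ⟨fun x ⟨n, a, b, h1, h2, h3⟩ => by
    rw [h1] at h2
    have h4 : a = b := by simpa using h2
    exact h3.ne h4⟩

/-- The graph `H`, a new vertex adjacent to all vertices of `H`, and a path of length `k` which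
starts at the new vertex: the vertices `inr 0, ..., inr k` form the path, `inr 0` is adjacent to
all vertices of `H`, and there are no other edges between the path and `H`. -/
def lolli {β : Type} (H : SimpleGraph β) (k : ℕ) : SimpleGraph (β ⊕ Fin (k + 1)) where
  Adj x y := match x, y with
    | Sum.inl a, Sum.inl b => H.Adj a b
    | Sum.inl _, Sum.inr i => i = 0
    | Sum.inr i, Sum.inl _ => i = 0
    | Sum.inr i, Sum.inr j => i.val = j.val + 1 ∨ j.val = i.val + 1
  symm := ⟨by
    rintro (a | i) (b | j) h
    · exact H.symm.symm _ _ h
    · exact h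
    · exact h
    · exact h.symm⟩
  loopless := ⟨by
    rintro (a | i) h
    · exact H.loopless.irrefl a h
    · have h : i.val = i.val + 1 ∨ i.val = i.val + 1 := h
      omega⟩

/-- The smallest class of (countable) graphs which contains the one-way infinite path and the
complete bipartite graphs `K_{t, ℵ₀}` with `t` finite, and which is closed under countable disjoint
unions, under adding to a graph a vertex adjacent to all its vertices and a path of any finite
length at this new vertex, and under isomorphisms and induced subgraphs. -/
inductive Forced : {β : Type} → SimpleGraph β → Prop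
  | ray : Forced (SimpleGraph.hasse ℕ)
  | biclique (t : ℕ) : Forced (completeBipartiteGraph (Fin t) ℕ)
  | dunion {β : ℕ → Type} (H : ∀ n, SimpleGraph (β n)) : (∀ n, Forced (H n)) →
      Forced (dunion H)
  | lolli {β : Type} (H : SimpleGraph β) (k : ℕ) : Forced H → Forced (lolli H k)
  | sub {β β' : Type} (H : SimpleGraph β) (H' : SimpleGraph β') (e : H' ↪g H) : Forced H →
      Forced H'

end Pool.Agent.Helper94.TF
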