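import Pool.Agent.Helper94.TF.RayMain

/-!
# A vertex which is not caught, and its path
-/

set_option autoImplicit false

open Cardinal Set

namespace Pool.Agent.Helper94.TF

open Pool.Agent.Helper25.TF

universe u

variable {V : Type u} [Nonempty V]

/-- `s` is a code of the vertex `z` of `F` -/
def GoodF (G : SimpleGraph V) {Λ C : Type u} (κ : Set V → V → C) (F : Set V) (s : Code Λ C)
    (z : V) : Prop :=
  (∀ o < (s.1.1.toOrd : Ordinal.{u}), (st G F z o).2 ≠ z) ∧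
  (∀ j : Iio s.1.1, (s.1.2 j ↔ G.Adj (st G F z j.1.toOrd).2 z)) ∧
  ((s.2 = none ∧ (st G F z s.1.1.toOrd).2 = z) ∨
    (s.2 = some (κ (st G F z s.1.1.toOrd).1 z) ∧
      IsCol G (st G F z s.1.1.toOrd).1 (κ (st G F z s.1.1.toOrd).1)))

theorem goodF_free {G : SimpleGraph V} {Λ C : Type u} {κ : Set V → V → C} {F : Set V}
    {s : Code Λ C} {b c : V} (hbF : b ∈ F) (hcF : c ∈ F) (h3 : G.Adj b c)
    (hb : GoodF G κ F s b) (hc : GoodF G κ F s c) : False := by
  have E := same hbF hcF h3 s.1.1.toOrd (by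
    intro ξ hξ
    refine ⟨hb.1 ξ hξ, hc.1 ξ hξ, ?_⟩
    have hξΩ : ξ < (Order.succ #Λ).ord := hξ.trans s.1.1.toOrd.2
    have hj : Ordinal.ToType.mk ⟨ξ, hξΩ⟩ < s.1.1 := Ordinal.ToType.mk.symm.lt_iff_lt.1 (by
      rw [OrderIso.symm_apply_apply]
      exact hξ)
    have e : ((Ordinal.ToType.mk (⟨ξ, hξΩ⟩ : Set.Iio (Order.succ #Λ).ord)).toOrd :
      Set.Iio (Order.succ #Λ).ord) = ⟨ξ, hξΩ⟩ := OrderIso.symm_apply_apply _ _
    have k1 := hb.2.1 ⟨_, hj⟩
    have k2 := hc.2.1 ⟨_, hj⟩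
    simp only [e] at k1 k2
    exact k1.symm.trans k2)
  have Ib := inv hbF _ hb.1
  have Ic := inv hcF _ hc.1
  rcases hb.2.2 with ⟨h4, h5⟩ | ⟨h4, h5⟩
  · rcases hc.2.2 with ⟨-, h7⟩ | ⟨h6, -⟩
    · rw [E] at h5
      exact h3.ne (h5.symm.trans h7)
    · rw [h4] at h6
      exact absurd h6 (by simp)
  · rcases hc.2.2 with ⟨h6, -⟩ | ⟨h6, -⟩
    · rw [h4] at h6
      exact absurd h6 (by simp)
    · have mc := Ic.mem
      rw [h4] at h6
      rw [← E] at h6 mc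
      exact h5 b Ib.mem c mc h3 (Option.some.inj h6)

theorem exists_goodF {G : SimpleGraph V} {Λ C : Type u} (κ : Set V → V → C)
    (hκ : ∀ D : Set V, ColOn G D C → IsCol G D (κ D)) {F : Set V} {b : V}
    (hstop : ∃ o < (Order.succ #Λ).ord, (st G F b o).2 = b ∨ ColOn G (st G F b o).1 C) :
    ∃ s : Code Λ C, GoodF G κ F s b := by
  classical
  obtain ⟨o, ho, hstop⟩ := hstop
  have hex : ∃ o : Ordinal.{u}, (st G F b o).2 = b ∨ ColOn G (st G F b o).1 C := ⟨o, hstop⟩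
  obtain ⟨τ, hτ, hmin⟩ : ∃ τ : Ordinal.{u}, ((st G F b τ).2 = b ∨
      ColOn G (st G F b τ).1 C) ∧ ∀ ξ < τ, ¬ ((st G F b ξ).2 = b ∨
      ColOn G (st G F b ξ).1 C) := by
    refine ⟨sInf {ξ | (st G F b ξ).2 = b ∨ ColOn G (st G F b ξ).1 C}, csInf_mem hex, ?_⟩
    intro ξ hξ h1
    exact notMem_of_lt_csInf' hξ h1
  have hτΩ : τ < (Order.succ #Λ).ord := by
    by_contra hcon
    exact hmin o (ho.trans_le (not_lt.1 hcon)) hstop
  have e : ((Ordinal.ToType.mk (⟨τ, hτΩ⟩ : Set.Iio (Order.succ #Λ).ord)).toOrd :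
      Set.Iio (Order.succ #Λ).ord) = ⟨τ, hτΩ⟩ := OrderIso.symm_apply_apply _ _
  have hA : ∀ ξ < τ, (st G F b ξ).2 ≠ b := fun ξ hξ h1 => hmin ξ hξ (Or.inl h1)
  by_cases hb : (st G F b τ).2 = b
  · refine ⟨(⟨Ordinal.ToType.mk ⟨τ, hτΩ⟩, fun j => G.Adj (st G F b j.1.toOrd).2 b⟩,
      none), ?_, fun j => Iff.rfl, Or.inl ⟨rfl, ?_⟩⟩
    · intro ξ hξ
      rw [e] at hξ
      exact hA ξ hξ
    · rw [e]
      exact hb
  · refine ⟨(⟨Ordinal.ToType.mk ⟨τ, hτΩ⟩, fun j => G.Adj (st G F b j.1.toOrd).2 b⟩,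
      some (κ (st G F b τ).1 b)), ?_, fun j => Iff.rfl, Or.inr ⟨?_, ?_⟩⟩
    · intro ξ hξ
      rw [e] at hξ
      exact hA ξ hξ
    · rw [e]
    · rw [e]
      exact hκ _ (hτ.resolve_left hb)

/-- some vertex of a set which has no colouring with `C` is never caught -/
theorem exists_free {G : SimpleGraph V} {Λ C : Type u} (hΛ : ℵ₀ ≤ #Λ) (hC : 2 ^ #Λ ≤ #C)
    {F : Set V} (hF : ¬ ColOn G F C) :
    ∃ z ∈ F, ∀ o < (Order.succ #Λ).ord, (st G F z o).2 ≠ z ∧ ¬ ColOn G (st G F z o).1 C := by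
  classical
  by_contra hcon
  push Not at hcon
  have hC0 : #C ≠ 0 := (Cardinal.aleph0_pos.trans_le
    ((hΛ.trans (Cardinal.cantor _).le).trans hC)).ne'
  have hCne : Nonempty C := Cardinal.mk_ne_zero_iff.1 hC0
  have hcol : ∀ D : Set V, ∃ κ : V → C, ColOn G D C → IsCol G D κ := by
    intro D
    by_cases h : ColOn G D C
    · obtain ⟨f, hf⟩ := h
      exact ⟨f, fun _ => hf⟩
    · exact ⟨fun _ => Classical.arbitrary C, fun h' => absurd h' h⟩
  choose κ hκ using hcol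
  have hgood : ∀ z, ∃ s : Code Λ C, z ∈ F → GoodF G κ F s z := by
    intro z
    by_cases hz : z ∈ F
    · obtain ⟨o, ho, h1⟩ := hcon z hz
      obtain ⟨s, hs⟩ := exists_goodF (Λ := Λ) κ hκ (F := F) (b := z) ⟨o, ho, by
        by_cases h2 : (st G F z o).2 = z
        · exact Or.inl h2
        · exact Or.inr (h1 h2)⟩
      exact ⟨s, fun _ => hs⟩
    · have := nonempty_TT Λ
      exact ⟨(⟨Classical.arbitrary (TT Λ), fun _ => True⟩, none), fun h => absurd h hz⟩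
  choose c hc using hgood
  apply hF
  refine ColOn.of_card_le (α := Code Λ C) ⟨c, ?_⟩ ((mk_code hΛ).trans (max_le hC le_rfl))
  intro x hx y hy hxy h
  have h1 := hc x hx
  rw [h] at h1
  exact goodF_free hx hy hxy h1 (hc y hy)

/-- a vertex which is not caught meets only non-adjacent rounds from some stage on -/
theorem eventually_neg {G : SimpleGraph V} {Λ : Type u} (hbad : Bad G Λ) (hΛ : ℵ₀ ≤ #Λ)
    {F : Set V} {z : V} (hz : z ∈ F)
    (hfree : ∀ o < (Order.succ #Λ).ord, (st G F z o).2 ≠ z) :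
    ∃ s < (Order.succ #Λ).ord, ∀ o < (Order.succ #Λ).ord, s < o →
      ¬ G.Adj (st G F z o).2 z := by
  classical
  set Ω := (Order.succ #Λ).ord with hΩ
  have hv : ∀ o < Ω, ∀ ξ < o, (st G F z ξ).2 ≠ z := fun o ho ξ hξ => hfree ξ (hξ.trans ho)
  have hne := nonempty_TT Λ
  by_contra hB
  push Not at hB
  let B : Set (TT Λ) := {t | G.Adj (st G F z t.toOrd).2 z}
  have hB' : ∀ s : TT Λ, ∃ t ∈ B, s < t := fun s => by
    obtain ⟨o, h1, h2, h3⟩ := hB s.toOrd s.toOrd.2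
    have e : ((Ordinal.ToType.mk (⟨o, h1⟩ : Set.Iio Ω)).toOrd : Set.Iio Ω) = ⟨o, h1⟩ :=
      OrderIso.symm_apply_apply _ _
    refine ⟨Ordinal.ToType.mk ⟨o, h1⟩, ?_, ?_⟩
    · change G.Adj (st G F z (Ordinal.ToType.mk (⟨o, h1⟩ : Set.Iio Ω)).toOrd).2 z
      rw [e]
      exact h3
    · refine Ordinal.ToType.mk.symm.lt_iff_lt.1 ?_
      rw [OrderIso.symm_apply_apply]
      exact h2
  have hinf : B.Infinite := Set.infinite_of_forall_exists_gt hB'
  have : Infinite B := hinf.to_subtype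
  have hBne : Nonempty B := inferInstance
  choose nx hnx1 hnx2 using hB'
  have hT : ∀ f : B → Λ, ∃ j, ∀ s, ∃ t, s < t ∧ f t = j := by
    intro f
    obtain ⟨j, hj⟩ := TT_fibre Λ hΛ (fun t => f ⟨nx t, hnx1 t⟩)
    refine ⟨j, fun s => ?_⟩
    obtain ⟨t, h1, h2⟩ := hj s.1
    exact ⟨⟨nx t, hnx1 t⟩, h1.trans (hnx2 t), h2⟩
  have hcard : #(B × B × B) ≤ #B := by
    have h0 : ℵ₀ ≤ #B := Cardinal.aleph0_le_mk B
    simp only [Cardinal.mk_prod, Cardinal.lift_id]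
    rw [Cardinal.mul_eq_self h0, Cardinal.mul_eq_self h0]
  obtain ⟨e⟩ := Cardinal.le_def _ _ |>.1 hcard
  refine no_clique hbad (specker B) (specker_free _) (specker_col hT)
    (fun i => (st G F z (e i).1.toOrd).2) ?_
  have key : ∀ a b : B, a < b → G.Adj (st G F z a.1.toOrd).2 (st G F z b.1.toOrd).2 := by
    intro a b hab
    have hab' : (a.1.toOrd : Ordinal.{u}) < b.1.toOrd := Ordinal.ToType.mk.symm.lt_iff_lt.2 hab
    exact rel1 hz (hv _ b.1.toOrd.2) hab' a.2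
  intro p q hpq
  rcases lt_trichotomy (e p) (e q) with h1 | h1 | h1
  · exact key _ _ h1
  · exact absurd (e.injective h1) hpq
  · exact (key _ _ h1).symm

/-- an induced one-way infinite path attached to a decreasing sequence of large connected sets -/
theorem run {G : SimpleGraph V} {Λ C : Type u} (hbad : Bad G Λ) (hΛ : ℵ₀ ≤ #Λ)
    (hC : 2 ^ #Λ ≤ #C) {F : Set V} (hF : ¬ ColOn G F C) :
    ∃ (p : ℕ → V) (D : ℕ → Set V), (∀ n, p n ∈ F) ∧
      (∀ m n, G.Adj (p m) (p n) ↔ m = n + 1 ∨ n = m + 1) ∧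
      (∀ n, D n ⊆ F ∧ Conn G (D n) ∧ ¬ ColOn G (D n) C ∧ p n ∉ D n ∧
        ∃ u ∈ D n, G.Adj (p n) u) ∧
      ∀ m n, m < n → ∀ x ∈ D n, x ≠ p m ∧ ¬ G.Adj (p m) x := by
  obtain ⟨z, hz, hfree⟩ := exists_free hΛ hC hF
  obtain ⟨s, hs, hneg⟩ := eventually_neg hbad hΛ hz (fun o ho => (hfree o ho).1)
  set Ω := (Order.succ #Λ).ord with hΩ
  have hsucc : ℵ₀ ≤ Order.succ #Λ := hΛ.trans (Order.le_succ _)
  have hlim : ∀ o < Ω, o + 1 < Ω := fun o ho =>
    (Cardinal.isSuccLimit_ord hsucc).add_one_lt ho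
  have hα : ∀ n : ℕ, s + 1 + n < Ω := by
    intro n
    induction n with
    | zero =>
      rw [Nat.cast_zero, add_zero]
      exact hlim s hs
    | succ n ih =>
      rw [Nat.cast_add, Nat.cast_one, ← add_assoc]
      exact hlim _ ih
  have hgt : ∀ n : ℕ, s < s + 1 + n := fun n =>
    (Order.lt_add_one_iff.2 le_rfl).trans_le le_self_add
  have hα' : ∀ n : ℕ, s + 1 + n + 1 < Ω := fun n => hlim _ (hα n)
  have hv : ∀ o < Ω, ∀ ξ < o, (st G F z ξ).2 ≠ z := fun o ho ξ hξ => (hfree ξ (hξ.trans ho)).1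
  have hn : ∀ n : ℕ, ¬ G.Adj (st G F z (s + 1 + n)).2 z := fun n => hneg _ (hα n) (hgt n)
  have hn' : ∀ n : ℕ, ¬ G.Adj (st G F z (s + 1 + n + 1)).2 z := fun n =>
    hneg _ (hα' n) ((hgt n).trans (Order.lt_add_one_iff.2 le_rfl))
  have hcast : ∀ n : ℕ, s + 1 + ((n + 1 : ℕ) : Ordinal.{u}) = s + 1 + n + 1 := by
    intro n
    rw [Nat.cast_add, Nat.cast_one, ← add_assoc]
  have hmono : ∀ m n : ℕ, m < n → s + 1 + m + 1 < s + 1 + (n : Ordinal.{u}) + 1 := by
    intro m n hmn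
    have h1 : ((m : ℕ) : Ordinal.{u}) < n := by exact_mod_cast hmn
    have h2 : s + 1 + (m : Ordinal.{u}) < s + 1 + n := (add_lt_add_iff_left _).2 h1
    exact (Order.add_one_le_iff.2 h2).trans_lt (Order.lt_add_one_iff.2 le_rfl)
  refine ⟨fun n => (st G F z (s + 1 + n + 1)).2, fun n => (st G F z (s + 1 + n + 1)).1,
    ?_, ?_, ?_, ?_⟩
  · intro n
    exact cop_mem hz (hv _ (hα' n))
  · have key : ∀ m n : ℕ, m < n → (G.Adj (st G F z (s + 1 + m + 1)).2
        (st G F z (s + 1 + n + 1)).2 ↔ n = m + 1) := by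
      intro m n hmn
      rw [rel0 hz (hv _ (hα' n)) (hmono m n hmn) (hn' m)]
      constructor
      · intro h
        rcases Nat.lt_or_ge (m + 1) n with h1 | h1
        · have h2 := hmono (m + 1) n h1
          rw [hcast m] at h2
          rw [h] at h2
          exact absurd h2 (lt_irrefl _)
        · omega
      · intro h
        subst h
        rw [hcast m]
    intro m n
    rcases lt_trichotomy m n with h | h | h
    · rw [key m n h]
      omega
    · subst h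
      constructor
      · intro h
        exact absurd h (G.loopless.irrefl _)
      · intro h
        omega
    · rw [G.adj_comm, key n m h]
      omega
  · intro n
    have I := inv hz _ (hv _ (hα' n))
    refine ⟨I.sub, I.conn, (hfree _ (hα' n)).2, ?_, ?_⟩
    · intro hmem
      rcases I.cop with h1 | ⟨ξ, h1, h2, -, h3, -⟩
      · exact hn n (h1.2 _ rfl)
      · have h4 : ξ < s + 1 + n + 1 := by
          rw [h1]
          exact Order.lt_add_one_iff.2 le_rfl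
        exact ((I.down ξ h4).2.2 h2 _ hmem).2 h3
    · rcases I.cop with h1 | ⟨ξ, h1, h2, -, -, h3⟩
      · exact absurd (h1.2 _ rfl) (hn n)
      · exact h3
  · intro m n hmn x hx
    have I := inv hz _ (hv _ (hα' n))
    exact (I.down _ (hmono m n hmn)).2.2 (hn' m) x hx

end Pool.Agent.Helper94.TF
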