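import Pool.Agent.Helper94.TF.Free

/-!
# A vertex with a large set of neighbours and a pendant path
-/

set_option autoImplicit false

open Cardinal Set

namespace Pool.Agent.Helper94.TF

open Pool.Agent.Helper25.TF

universe u

variable {V : Type u}

theorem sm_iff {G : SimpleGraph V} {N : Type u} {X : Set V} :
    Sm G (Order.succ #N) X ↔ ColOn G X N := by
  constructor
  · rintro ⟨α, hα, h⟩
    exact h.of_card_le (Order.lt_succ_iff.1 hα)
  · intro h
    exact ⟨N, Order.lt_succ _, h⟩

/-- the vertices which can be reached from `u` in `n` steps inside `D` -/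
def Rs (G : SimpleGraph V) (D : Set V) (u : V) : ℕ → V → Prop
  | 0, x => x = u
  | n + 1, x => x ∈ D ∧ ∃ y, Rs G D u n y ∧ G.Adj y x

theorem Rs.path {G : SimpleGraph V} {D : Set V} {u : V} :
    ∀ (n : ℕ) (x : V), Rs G D u n x → ∃ w : ℕ → V, w n = x ∧ (∀ i ≤ n, Rs G D u i (w i)) ∧
      ∀ i < n, G.Adj (w i) (w (i + 1)) := by
  classical
  intro n
  induction n with
  | zero =>
    intro x hx
    refine ⟨fun _ => x, rfl, ?_, ?_⟩
    · intro i hi
      have : i = 0 := by omega
      subst this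
      exact hx
    · intro i hi
      omega
  | succ n ih =>
    rintro x ⟨hx, y, hy, hyx⟩
    obtain ⟨w, h1, h2, h3⟩ := ih y hy
    refine ⟨fun i => if i ≤ n then w i else x, ?_, ?_, ?_⟩
    · simp
    · intro i hi
      by_cases h : i ≤ n
      · simp only [h, if_true]
        exact h2 i h
      · have : i = n + 1 := by omega
        subst this
        simp only [h, if_false]
        exact ⟨hx, y, hy, hyx⟩
    · intro i hi
      by_cases h : i + 1 ≤ n
      · have h' : i ≤ n := by omega
        simp only [h, h', if_true]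
        exact h3 i (by omega)
      · have h' : i ≤ n := by omega
        have h'' : i = n := by omega
        simp only [h, h', if_true, if_false]
        rw [h'', h1]
        exact hyx

theorem Rs.follow {G : SimpleGraph V} {D : Set V} {u : V} {w : ℕ → V} {n : ℕ}
    (h1 : ∀ i ≤ n, Rs G D u i (w i)) (h2 : ∀ i < n, G.Adj (w i) (w (i + 1))) :
    ∀ (d j a : ℕ), j + d = n → Rs G D u a (w j) → Rs G D u (a + d) (w n) := by
  intro d
  induction d with
  | zero =>
    intro j a hj h
    have : j = n := by omega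
    subst this
    exact h
  | succ d ih =>
    intro j a hj h
    have h3 : Rs G D u (a + 1) (w (j + 1)) := by
      refine ⟨?_, w j, h, h2 j (by omega)⟩
      exact (h1 (j + 1) (by omega)).1
    have h4 := ih (j + 1) (a + 1) (by omega) h3
    have e : a + 1 + d = a + (d + 1) := by omega
    rw [e] at h4
    exact h4

theorem Rs.of_rch {G : SimpleGraph V} {D : Set V} {u a b : V} (hab : Rch G D a b)
    (ha : ∃ n, Rs G D u n a) : ∃ n, Rs G D u n b := by
  induction hab with
  | refl => exact ha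
  | tail _ hbc ih =>
    obtain ⟨n, hn⟩ := ih
    exact ⟨n + 1, hbc.2.1, _, hn, hbc.2.2⟩

theorem lolli_step [Nonempty V] {G : SimpleGraph V} {Λ C N : Type u} (hbad : Bad G Λ)
    (hΛ : ℵ₀ ≤ #Λ) (hN : ℵ₀ ≤ #N) (hC : 2 ^ #Λ ≤ #C) (hCN : #(N → Λ) ≤ #C) {W : Set V}
    (hW : ¬ ColOn G W C) (k : ℕ) :
    ∃ (L : Set V) (s : ℕ → V), L ⊆ W ∧ ¬ ColOn G L N ∧ (∀ i ≤ k, s i ∈ W) ∧
      (∀ i ≤ k, ∀ j ≤ k, (G.Adj (s i) (s j) ↔ i = j + 1 ∨ j = i + 1) ∧ (s i = s j → i = j)) ∧
      ∀ x ∈ L, ∀ i ≤ k, x ≠ s i ∧ (G.Adj (s i) x ↔ i = 0) := by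
  classical
  obtain ⟨p, D, hp1, hp2, hD, hpD⟩ := run hbad hΛ hC hW
  have hreg : (Order.succ #N).IsRegular := Cardinal.isRegular_succ hN
  -- the ray is injective
  have hpinj : ∀ a b, p a = p b → a = b := by
    intro a b hab
    have h1 : G.Adj (p a) (p (a + 1)) := (hp2 _ _).2 (Or.inr rfl)
    have h2 : G.Adj (p b) (p (b + 1)) := (hp2 _ _).2 (Or.inr rfl)
    rw [hab] at h1
    rw [← hab] at h2
    have h3 := (hp2 _ _).1 h1
    have h4 := (hp2 _ _).1 h2
    omega
  -- a vertex of large degree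
  obtain ⟨q, hq, hqL⟩ : ∃ q ∈ D k, ¬ ColOn G {y | y ∈ D k ∧ G.Adj q y} N := by
    by_contra hcon
    push Not at hcon
    let _ : LinearOrder V := linearOrderOfSTO WellOrderingRel
    refine (hD k).2.2.1 ((rodl hbad (D k) N ?_).of_card_le hCN)
    intro v hv
    exact (hcon v hv).mono (fun x hx => ⟨hx.1, hx.2.2⟩)
  have hex : ∃ n x, Rs G (D k) (p k) n x ∧ ¬ ColOn G {y | y ∈ D k ∧ G.Adj x y} N := by
    obtain ⟨u, hu, hpu⟩ := (hD k).2.2.2.2
    obtain ⟨n, hn⟩ := Rs.of_rch (u := p k) ((hD k).2.1 u hu q hq) ⟨1, hu, p k, rfl, hpu⟩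
    exact ⟨n, q, hn, hqL⟩
  obtain ⟨n, hn, hmin⟩ : ∃ n, (∃ x, Rs G (D k) (p k) n x ∧
      ¬ ColOn G {y | y ∈ D k ∧ G.Adj x y} N) ∧ ∀ m < n, ¬ ∃ x, Rs G (D k) (p k) m x ∧
      ¬ ColOn G {y | y ∈ D k ∧ G.Adj x y} N :=
    ⟨Nat.find hex, Nat.find_spec hex, fun m hm => Nat.find_min hex hm⟩
  obtain ⟨x, hx, hxL⟩ := hn
  obtain ⟨w, hw0, hw1, hw2⟩ := hx.path
  have hwD : ∀ i, i + 1 ≤ n → w (i + 1) ∈ D k := fun i hi => (hw1 (i + 1) hi).1
  have hw00 : w 0 = p k := hw1 0 (Nat.zero_le n)
  have hwmin : ∀ m, Rs G (D k) (p k) m (w n) → n ≤ m := by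
    intro m hm
    by_contra hcon
    rw [hw0] at hm
    exact hmin m (by omega) ⟨x, hm, hxL⟩
  have hwadj : ∀ i j, i < j → j ≤ n → (G.Adj (w i) (w j) ↔ j = i + 1) := by
    intro i j hij hj
    constructor
    · intro h
      have h1 : Rs G (D k) (p k) (i + 1) (w j) := by
        refine ⟨?_, w i, hw1 i (by omega), h⟩
        obtain ⟨j', rfl⟩ : ∃ j', j = j' + 1 := ⟨j - 1, by omega⟩
        exact hwD j' hj
      have h2 := hwmin _ (Rs.follow hw1 hw2 (n - j) j (i + 1) (by omega) h1)
      omega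
    · intro h
      subst h
      exact hw2 i (by omega)
  have hwinj : ∀ i j, i < j → j ≤ n → w i ≠ w j := by
    intro i j hij hj h
    have h1 : Rs G (D k) (p k) i (w j) := by
      rw [← h]
      exact hw1 i (by omega)
    have h2 := hwmin _ (Rs.follow hw1 hw2 (n - j) j i (by omega) h1)
    omega
  have hwsm : ∀ i < n, ColOn G {y | y ∈ D k ∧ G.Adj (w i) y} N := by
    intro i hi
    by_contra hcon
    exact hmin i hi ⟨w i, hw1 i hi.le, hcon⟩
  -- the large set
  have hLm : ∀ m ≤ n, ¬ ColOn G {y | y ∈ D k ∧ G.Adj x y ∧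
      ∀ i < m, y ≠ w i ∧ ¬ G.Adj (w i) y} N := by
    intro m
    induction m with
    | zero =>
      intro _ h
      refine hxL (h.mono ?_)
      rintro y ⟨h1, h2⟩
      exact ⟨h1, h2, fun i hi => absurd hi (Nat.not_lt_zero i)⟩
    | succ m ih =>
      intro hm h
      refine ih (by omega) ?_
      rw [← sm_iff] at h ⊢
      have h1 := hwsm m (by omega)
      rw [← sm_iff] at h1
      have h2 : Sm G (Order.succ #N) {w m} := by
        refine ⟨PUnit, ?_, fun _ => PUnit.unit, ?_⟩
        · rw [Cardinal.mk_punit]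
          exact Cardinal.one_lt_aleph0.trans_le hreg.1
        · rintro a rfl b rfl hab
          exact absurd hab (G.loopless.irrefl _)
      refine (Sm.union hreg (Sm.union hreg h h1) h2).mono ?_
      rintro y ⟨h3, h4, h5⟩
      by_cases h6 : y = w m
      · exact Or.inr h6
      · by_cases h7 : G.Adj (w m) y
        · exact Or.inl (Or.inr ⟨h3, h7⟩)
        · refine Or.inl (Or.inl ⟨h3, h4, ?_⟩)
          intro i hi
          rcases Nat.lt_or_ge i m with h8 | h8
          · exact h5 i h8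
          · have : i = m := by omega
            subst this
            exact ⟨h6, h7⟩
  -- the long path
  let c : ℕ → V := fun j => if j < k then p j else w (j - k)
  have hc1 : ∀ j, j < k → c j = p j := fun j hj => if_pos hj
  have hc2 : ∀ j, k ≤ j → c j = w (j - k) := fun j hj => if_neg (by omega)
  have hkey : ∀ a b, a < b → b ≤ k + n → (G.Adj (c a) (c b) ↔ b = a + 1) ∧ c a ≠ c b := by
    intro a b hab hb
    rcases Nat.lt_or_ge b k with h | h
    · rw [hc1 a (by omega), hc1 b h, hp2]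
      refine ⟨by omega, fun h1 => ?_⟩
      have := hpinj _ _ h1
      omega
    · rcases Nat.lt_or_ge a k with h' | h'
      · rw [hc1 a h', hc2 b h]
        rcases Nat.eq_or_lt_of_le h with h1 | h1
        · subst h1
          rw [Nat.sub_self, hw00, hp2]
          refine ⟨by omega, fun h1 => ?_⟩
          have := hpinj _ _ h1
          omega
        · have h2 : w (b - k) ∈ D k := by
            obtain ⟨j', hj'⟩ : ∃ j', b - k = j' + 1 := ⟨b - k - 1, by omega⟩
            rw [hj']
            exact hwD j' (by omega)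
          have h3 := hpD a k h' _ h2
          exact ⟨⟨fun h4 => absurd h4 h3.2, fun h4 => by omega⟩, h3.1.symm⟩
      · rw [hc2 a h', hc2 b h, hwadj (a - k) (b - k) (by omega) (by omega)]
        exact ⟨by omega, hwinj (a - k) (b - k) (by omega) (by omega)⟩
  have hcW : ∀ j ≤ k + n, c j ∈ W := by
    intro j hj
    rcases Nat.lt_or_ge j k with h | h
    · rw [hc1 j h]
      exact hp1 j
    · rw [hc2 j h]
      rcases Nat.eq_zero_or_pos (j - k) with h1 | h1
      · rw [h1, hw00]
        exact hp1 k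
      · obtain ⟨j', hj'⟩ : ∃ j', j - k = j' + 1 := ⟨j - k - 1, by omega⟩
        rw [hj']
        exact (hD k).1 (hwD j' (by omega))
  refine ⟨{y | y ∈ D k ∧ G.Adj x y ∧ ∀ i < n, y ≠ w i ∧ ¬ G.Adj (w i) y},
    fun i => c (k + n - i), ?_, hLm n le_rfl, ?_, ?_, ?_⟩
  · intro y hy
    exact (hD k).1 hy.1
  · intro i _
    exact hcW _ (by omega)
  · intro i hi j hj
    rcases lt_trichotomy i j with h | h | h
    · have h1 := hkey (k + n - j) (k + n - i) (by omega) (by omega)
      constructor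
      · rw [G.adj_comm, h1.1]
        omega
      · intro h2
        exact absurd h2.symm h1.2
    · subst h
      refine ⟨⟨fun h => absurd h (G.loopless.irrefl _), fun h => by omega⟩, fun _ => rfl⟩
    · have h1 := hkey (k + n - i) (k + n - j) (by omega) (by omega)
      constructor
      · rw [h1.1]
        omega
      · intro h2
        exact absurd h2 h1.2
  · rintro y ⟨hy1, hy2, hy3⟩ i hi
    change y ≠ c (k + n - i) ∧ (G.Adj (c (k + n - i)) y ↔ i = 0)
    rcases Nat.eq_zero_or_pos i with h0 | h0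
    · subst h0
      have e : c (k + n - 0) = x := by
        rw [Nat.sub_zero, hc2 _ (Nat.le_add_right k n), Nat.add_sub_cancel_left, hw0]
      rw [e]
      refine ⟨?_, fun _ => rfl, fun _ => hy2⟩
      intro h
      rw [h] at hy2
      exact G.loopless.irrefl _ hy2
    · rcases Nat.lt_or_ge (k + n - i) k with h | h
      · rw [hc1 _ h]
        have h3 := hpD _ k h y hy1
        exact ⟨h3.1, fun h4 => absurd h4 h3.2, fun h4 => by omega⟩
      · rw [hc2 _ h]
        have h3 := hy3 (k + n - i - k) (by omega)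
        exact ⟨h3.1, fun h4 => absurd h4 h3.2, fun h4 => by omega⟩

end Pool.Agent.Helper94.TF
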