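import Pool.Agent.Helper94.TF.Caught
import Pool.Agent.Helper25.TF.Final

/-!
# Graphs without many anticomplete induced rays in forward neighbourhoods
-/

set_option autoImplicit false

open Cardinal Set

namespace Pool.Agent.Helper94.TF

open Pool.Agent.Helper25.TF

universe u

variable {V : Type u}

/-- the forward neighbourhood of `y` -/
def fw [LinearOrder V] (G : SimpleGraph V) (y : V) : Set V := {x | y < x ∧ G.Adj y x}

/-- codes of edges -/
abbrev Code (Λ C : Type u) : Type u := (Σ t : TT Λ, (Iio t → Prop)) × Option C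

theorem mk_code {Λ C : Type u} (hΛ : ℵ₀ ≤ #Λ) :
    #(Code Λ C) ≤ max (2 ^ #Λ) #C := by
  have h2 : ℵ₀ ≤ (2 : Cardinal.{u}) ^ #Λ := hΛ.trans (Cardinal.cantor _).le
  have h1 : #(Σ t : TT Λ, (Iio t → Prop)) ≤ 2 ^ #Λ := by
    rw [Cardinal.mk_sigma]
    have h3 : ∀ t : TT Λ, #(Iio t → Prop) ≤ 2 ^ #Λ := by
      intro t
      have e1 : #(Iio t → Prop) = 2 ^ #(Iio t) := by simp
      rw [e1]
      exact Cardinal.power_le_power_left two_ne_zero (Order.lt_succ_iff.1 (Iio_lt t))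
    refine (Cardinal.sum_le_sum _ (fun _ => 2 ^ #Λ) h3).trans ?_
    rw [Cardinal.sum_const, Cardinal.lift_id, Cardinal.lift_id, mk_TT]
    refine (mul_le_mul_left (Order.succ_le_iff.2 (Cardinal.cantor _)) _).trans ?_
    rw [Cardinal.mul_eq_self h2]
  rw [Code, Cardinal.mk_prod, Cardinal.lift_id, Cardinal.lift_id, Cardinal.mk_option]
  refine (mul_le_mul_left h1 _).trans ?_
  refine (Cardinal.mul_le_max _ _).trans ?_
  refine max_le (max_le (le_max_left _ _) ?_) (h2.trans (le_max_left _ _))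
  refine (Cardinal.add_le_max _ _).trans ?_
  refine max_le (max_le (le_max_right _ _) ?_) (h2.trans (le_max_left _ _))
  exact (Cardinal.one_lt_aleph0.le.trans h2).trans (le_max_left _ _)

section

variable [Nonempty V] [LinearOrder V]

/-- a proper colouring of `D` with values in `C`, when there is one -/
def IsCol (G : SimpleGraph V) (D : Set V) {C : Type u} (κ : V → C) : Prop :=
  ∀ x ∈ D, ∀ y ∈ D, G.Adj x y → κ x ≠ κ y

/-- `s` is a code of the edge `y z` -/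
def Good (G : SimpleGraph V) {Λ C : Type u} (κ : Set V → V → C) (s : Code Λ C) (y z : V) :
    Prop :=
  (∀ o < (s.1.1.toOrd : Ordinal.{u}), (st G (fw G y) z o).2 ≠ z) ∧
  (∀ j : Iio s.1.1, (s.1.2 j ↔ G.Adj (st G (fw G y) z j.1.toOrd).2 z)) ∧
  ((s.2 = none ∧ (st G (fw G y) z s.1.1.toOrd).2 = z) ∨
    (s.2 = some (κ (st G (fw G y) z s.1.1.toOrd).1 z) ∧
      IsCol G (st G (fw G y) z s.1.1.toOrd).1 (κ (st G (fw G y) z s.1.1.toOrd).1)))

theorem good_free {G : SimpleGraph V} {Λ C : Type u} {κ : Set V → V → C} {s : Code Λ C}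
    {a b c : V} (hab : a < b) (hac : a < c) (h1 : G.Adj a b) (h2 : G.Adj a c)
    (h3 : G.Adj b c) (hb : Good G κ s a b) (hc : Good G κ s a c) : False := by
  have hbF : b ∈ fw G a := ⟨hab, h1⟩
  have hcF : c ∈ fw G a := ⟨hac, h2⟩
  have E := same hbF hcF h3 s.1.1.toOrd (by
    intro ξ hξ
    refine ⟨hb.1 ξ hξ, hc.1 ξ hξ, ?_⟩
    have hξΩ : ξ < (Order.succ #Λ).ord := hξ.trans s.1.1.toOrd.2
    have hj : Ordinal.ToType.mk ⟨ξ, hξΩ⟩ < s.1.1 := Ordinal.ToType.mk.symm.lt_iff_lt.1 (by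
      rw [OrderIso.symm_apply_apply]
      exact hξ)
    have e : ((Ordinal.ToType.mk (⟨ξ, hξΩ⟩ : Set.Iio (Order.succ #Λ).ord)).toOrd :
      Set.Iio (Order.succ #Λ).ord) = ⟨ξ, hξΩ⟩ := OrderIso.symm_apply_apply _ _
    have k1 := hb.2.1 ⟨_, hj⟩
    have k2 := hc.2.1 ⟨_, hj⟩
    simp only [e] at k1 k2
    exact k1.symm.trans k2)
  have Ib := inv hbF _ hb.1
  have Ic := inv hcF _ hc.1
  rcases hb.2.2 with ⟨h4, h5⟩ | ⟨h4, h5⟩
  · rcases hc.2.2 with ⟨-, h7⟩ | ⟨h6, -⟩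
    · rw [E] at h5
      exact h3.ne (h5.symm.trans h7)
    · rw [h4] at h6
      exact absurd h6 (by simp)
  · rcases hc.2.2 with ⟨h6, -⟩ | ⟨h6, -⟩
    · rw [h4] at h6
      exact absurd h6 (by simp)
    · have mc := Ic.mem
      rw [h4] at h6
      rw [← E] at h6 mc
      exact h5 b Ib.mem c mc h3 (Option.some.inj h6)

theorem exists_good {G : SimpleGraph V} {Λ C : Type u} (hbad : Bad G Λ) (hΛ : ℵ₀ ≤ #Λ)
    (κ : Set V → V → C) (hκ : ∀ D : Set V, ColOn G D C → IsCol G D (κ D)) {a b : V}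
    (hab : a < b) (h : G.Adj a b)
    (hrays : ∀ p : TT Λ → ℕ → V, (∀ i n, a < p i n ∧ G.Adj a (p i n)) →
      (∀ i n j m, G.Adj (p i n) (p j m) ↔ i = j ∧ (m = n + 1 ∨ n = m + 1)) →
      ∃ i, ColOn G {x | (a < x ∧ G.Adj a x) ∧ ∀ j < i, ∀ n, ¬ G.Adj (p j n) x} C) :
    ∃ s : Code Λ C, Good G κ s a b := by
  classical
  obtain ⟨o, ho, hstop⟩ := caught (C := C) hbad hΛ (F := fw G a) (z := b) ⟨hab, h⟩ hrays
  have hex : ∃ o : Ordinal.{u}, (st G (fw G a) b o).2 = b ∨ ColOn G (st G (fw G a) b o).1 C :=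
    ⟨o, hstop⟩
  obtain ⟨τ, hτ, hmin⟩ : ∃ τ : Ordinal.{u}, ((st G (fw G a) b τ).2 = b ∨
      ColOn G (st G (fw G a) b τ).1 C) ∧ ∀ ξ < τ, ¬ ((st G (fw G a) b ξ).2 = b ∨
      ColOn G (st G (fw G a) b ξ).1 C) := by
    refine ⟨sInf {ξ | (st G (fw G a) b ξ).2 = b ∨ ColOn G (st G (fw G a) b ξ).1 C},
      csInf_mem hex, ?_⟩
    intro ξ hξ h1
    exact notMem_of_lt_csInf' hξ h1
  have hτΩ : τ < (Order.succ #Λ).ord := by
    by_contra hcon
    exact hmin o (ho.trans_le (not_lt.1 hcon)) hstop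
  have e : ((Ordinal.ToType.mk (⟨τ, hτΩ⟩ : Set.Iio (Order.succ #Λ).ord)).toOrd :
      Set.Iio (Order.succ #Λ).ord) = ⟨τ, hτΩ⟩ := OrderIso.symm_apply_apply _ _
  have hA : ∀ ξ < τ, (st G (fw G a) b ξ).2 ≠ b := fun ξ hξ h1 => hmin ξ hξ (Or.inl h1)
  by_cases hb : (st G (fw G a) b τ).2 = b
  · refine ⟨(⟨Ordinal.ToType.mk ⟨τ, hτΩ⟩, fun j => G.Adj (st G (fw G a) b j.1.toOrd).2 b⟩,
      none), ?_, fun j => Iff.rfl, Or.inl ⟨rfl, ?_⟩⟩
    · intro ξ hξ
      rw [e] at hξ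
      exact hA ξ hξ
    · rw [e]
      exact hb
  · refine ⟨(⟨Ordinal.ToType.mk ⟨τ, hτΩ⟩, fun j => G.Adj (st G (fw G a) b j.1.toOrd).2 b⟩,
      some (κ (st G (fw G a) b τ).1 b)), ?_, fun j => Iff.rfl, Or.inr ⟨?_, ?_⟩⟩
    · intro ξ hξ
      rw [e] at hξ
      exact hA ξ hξ
    · rw [e]
    · rw [e]
      exact hκ _ (hτ.resolve_left hb)

/-- the ray theorem, for bad graphs -/
theorem ray_bound {G : SimpleGraph V} {Λ C : Type u} [Nonempty C] (hbad : Bad G Λ)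
    (hΛ : ℵ₀ ≤ #Λ)
    (hrays : ∀ (y : V) (p : TT Λ → ℕ → V), (∀ i n, y < p i n ∧ G.Adj y (p i n)) →
      (∀ i n j m, G.Adj (p i n) (p j m) ↔ i = j ∧ (m = n + 1 ∨ n = m + 1)) →
      ∃ i, ColOn G {x | (y < x ∧ G.Adj y x) ∧ ∀ j < i, ∀ n, ¬ G.Adj (p j n) x} C) :
    ColOn G univ (Code Λ C → Λ) := by
  classical
  have hcol : ∀ D : Set V, ∃ κ : V → C, ColOn G D C → IsCol G D κ := by
    intro D
    by_cases h : ColOn G D C
    · obtain ⟨f, hf⟩ := h
      exact ⟨f, fun _ => hf⟩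
    · exact ⟨fun _ => Classical.arbitrary C, fun h' => absurd h' h⟩
  choose κ hκ using hcol
  let H : Code Λ C → SimpleGraph V := fun s =>
    { Adj := fun x y => G.Adj x y ∧ ((x < y ∧ Good G κ s x y) ∨ (y < x ∧ Good G κ s y x))
      symm := ⟨fun x y h => ⟨h.1.symm, h.2.symm⟩⟩
      loopless := ⟨fun x h => G.loopless.irrefl x h.1⟩ }
  have hH : ∀ s, ∃ c : V → Λ, ∀ x y, (H s).Adj x y → c x ≠ c y := by
    intro s
    refine hbad (H s) (fun x y h => h.1) (cliqueFree_of _ ?_)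
    intro a b c hab hac hbc h1 h2
    have g1 : Good G κ s a b := by
      rcases hab.2 with h | h
      · exact h.2
      · exact absurd h.1 (lt_asymm h1)
    have g2 : Good G κ s a c := by
      rcases hac.2 with h | h
      · exact h.2
      · exact absurd h.1 (lt_asymm h2)
    exact good_free h1 h2 hab.1 hac.1 hbc.1 g1 g2
  choose c hc using hH
  refine ⟨fun x s => c s x, ?_⟩
  intro x _ y _ hxy h
  rcases lt_trichotomy x y with h1 | h1 | h1
  · obtain ⟨s, hs⟩ := exists_good hbad hΛ κ hκ h1 hxy (hrays x)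
    exact hc s x y ⟨hxy, Or.inl ⟨h1, hs⟩⟩ (congrFun h s)
  · subst h1
    exact G.loopless.irrefl _ hxy
  · obtain ⟨s, hs⟩ := exists_good hbad hΛ κ hκ h1 hxy.symm (hrays y)
    exact hc s x y ⟨hxy, Or.inr ⟨h1, hs⟩⟩ (congrFun h s)

end

theorem rays (V : Type u) [LinearOrder V] (G : SimpleGraph V) (lam nu : Cardinal.{u})
    (hlam : ℵ₀ ≤ lam) (hG : ∀ α : Type u, #α ≤ 2 ^ max (2 ^ lam) nu → IsEmpty (G.Coloring α))
    (hrays : ∀ (y : V) (p : (Order.succ lam).ord.ToType → ℕ → V),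
      (∀ i n, y < p i n ∧ G.Adj y (p i n)) →
      (∀ i n j m, G.Adj (p i n) (p j m) ↔ i = j ∧ (m = n + 1 ∨ n = m + 1)) →
      ∃ i, ∃ α : Type u, #α ≤ nu ∧ Nonempty ((G.induce
        {x | (y < x ∧ G.Adj y x) ∧ ∀ j < i, ∀ n, ¬ G.Adj (p j n) x}).Coloring α)) :
    ∃ H : SimpleGraph V, H ≤ G ∧ H.CliqueFree 3 ∧
      ∀ α : Type u, #α ≤ lam → IsEmpty (H.Coloring α) := by
  classical
  rcases isEmpty_or_nonempty V with hV | hV
  · exfalso
    refine (hG PUnit ?_).false (SimpleGraph.Coloring.mk (fun x => isEmptyElim x) ?_)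
    · rw [Cardinal.mk_punit]
      exact Cardinal.one_le_iff_ne_zero.2 (Cardinal.power_ne_zero _ two_ne_zero)
    · intro x
      exact isEmptyElim x
  by_contra hcon
  obtain ⟨Λ, rfl⟩ : ∃ Λ : Type u, #Λ = lam := ⟨lam.out, Cardinal.mk_out _⟩
  obtain ⟨N, rfl⟩ : ∃ N : Type u, #N = nu := ⟨nu.out, Cardinal.mk_out _⟩
  have hbad : Bad G Λ := by
    intro H hH hfree
    by_contra h1
    apply hcon
    refine ⟨H, hH, hfree, ?_⟩
    intro α hα
    by_contra hne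
    rw [not_isEmpty_iff] at hne
    obtain ⟨c⟩ := hne
    obtain ⟨e⟩ := Cardinal.le_def α Λ |>.1 hα
    exact h1 ⟨fun x => e (c x), fun x y hxy he => c.valid hxy (e.injective he)⟩
  obtain ⟨f, hf⟩ := ray_bound (C := Option N) hbad hlam (by
    intro y p h1 h2
    obtain ⟨i, α, hα, ⟨c⟩⟩ := hrays y p h1 h2
    obtain ⟨e⟩ := Cardinal.le_def α N |>.1 hα
    refine ⟨i, fun x => if hx : x ∈ {x | (y < x ∧ G.Adj y x) ∧
      ∀ j < i, ∀ n, ¬ G.Adj (p j n) x} then some (e (c ⟨x, hx⟩)) else none, ?_⟩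
    intro x hx z hz hxz h
    simp only [dif_pos hx, dif_pos hz] at h
    exact c.valid (v := ⟨x, hx⟩) (w := ⟨z, hz⟩) (by simpa using hxz)
      (e.injective (Option.some.inj h)))
  refine (hG (Code Λ (Option N) → Λ) ?_).false
    (SimpleGraph.Coloring.mk f (fun {x y} hxy => hf x (mem_univ _) y (mem_univ _) hxy))
  have h2 : ℵ₀ ≤ (2 : Cardinal.{u}) ^ #Λ := hlam.trans (Cardinal.cantor _).le
  have h3 : #(Code Λ (Option N)) ≤ max (2 ^ #Λ) #N := by
    refine (mk_code hlam).trans (max_le (le_max_left _ _) ?_)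
    rw [Cardinal.mk_option]
    refine (Cardinal.add_le_max _ _).trans ?_
    refine max_le (max_le (le_max_right _ _) ?_) (h2.trans (le_max_left _ _))
    exact (Cardinal.one_lt_aleph0.le.trans h2).trans (le_max_left _ _)
  have h4 : #Λ * #(Code Λ (Option N)) ≤ max (2 ^ #Λ) #N :=
    calc #Λ * #(Code Λ (Option N)) ≤ max (2 ^ #Λ) #N * max (2 ^ #Λ) #N :=
          mul_le_mul' ((Cardinal.cantor _).le.trans (le_max_left _ _)) h3
      _ = max (2 ^ #Λ) #N := Cardinal.mul_eq_self (h2.trans (le_max_left _ _))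
  calc #(Code Λ (Option N) → Λ) = #Λ ^ #(Code Λ (Option N)) := (Cardinal.power_def _ _).symm
    _ ≤ (2 ^ #Λ) ^ #(Code Λ (Option N)) := Cardinal.power_le_power_right (Cardinal.cantor _).le
    _ = 2 ^ (#Λ * #(Code Λ (Option N))) := (Cardinal.power_mul).symm
    _ ≤ 2 ^ max (2 ^ #Λ) #N := Cardinal.power_le_power_left two_ne_zero h4

end Pool.Agent.Helper94.TF
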