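import Pool.Agent.Helper25.TF.Final

/-!
# The splitting rank
-/

set_option autoImplicit false

open Cardinal Set

namespace Pool.Agent.Helper94.TF

open Pool.Agent.Helper25.TF

universe u

variable {V : Type u}

/-- one step: every vertex has few colours on its forward neighbours or on its non-neighbours -/
theorem split_step [LinearOrder V] {G : SimpleGraph V} {Λ : Type u} (hbad : Bad G Λ)
    (hΛ : ℵ₀ ≤ #Λ) (P : Type u) (X : Set V)
    (hX : ∀ v ∈ X, ColOn G {x | x ∈ X ∧ v < x ∧ G.Adj v x} P ∨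
      ColOn G {x | x ∈ X ∧ ¬ G.Adj v x} P) :
    Sm G (Order.succ (max (max #(P → Λ) #P) (Order.succ #Λ))) X := by
  classical
  set c := Order.succ (max (max #(P → Λ) #P) (Order.succ #Λ)) with hc
  have h0 : ℵ₀ ≤ max (max #(P → Λ) #P) (Order.succ #Λ) :=
    (hΛ.trans (Order.le_succ _)).trans (le_max_right _ _)
  have hreg : c.IsRegular := Cardinal.isRegular_succ h0
  have h1 : #(P → Λ) < c := Order.lt_succ_iff.2 ((le_max_left _ _).trans (le_max_left _ _))
  have h2 : #P < c := Order.lt_succ_iff.2 ((le_max_right _ _).trans (le_max_left _ _))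
  have h3 : Order.succ #Λ < c := Order.lt_succ_iff.2 (le_max_right _ _)
  have hB : Sm G c {v | v ∈ X ∧ ColOn G {x | x ∈ X ∧ v < x ∧ G.Adj v x} P} := by
    refine ⟨P → Λ, h1, rodl hbad _ _ ?_⟩
    intro v hv
    refine hv.2.mono ?_
    rintro x ⟨hx1, hx2⟩
    exact ⟨hx1.1, hx2⟩
  have hA : Sm G c {v | v ∈ X ∧ ColOn G {x | x ∈ X ∧ ¬ G.Adj v x} P} := by
    by_contra hcon
    have := nonempty_TT Λ
    obtain ⟨φ, hφ⟩ := exists_clique (R := TT Λ × TT Λ × TT Λ) hreg
      (fun v hv => hv.1) hcon (fun v hv => ⟨P, h2, hv.2⟩) (by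
        rw [mk_TT3 Λ hΛ]
        exact h3)
    exact no_clique hbad (specker (TT Λ)) (specker_free _) (specker_col (TT_fibre Λ hΛ)) φ hφ
  refine (Sm.union hreg hB hA).mono ?_
  intro v hv
  rcases hX v hv with h | h
  · exact Or.inl ⟨hv, h⟩
  · exact Or.inr ⟨hv, h⟩

/-- the splitting rank theorem for bad graphs -/
theorem split_bound [LinearOrder V] {G : SimpleGraph V} {Λ : Type u} (hbad : Bad G Λ)
    (hΛ0 : ℵ₀ ≤ #Λ) {κ : Cardinal.{u}} (hκ : κ.IsInaccessible) (hΛ : #Λ < κ)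
    {θ : Cardinal.{u}} (hθ : θ < κ) {R : Type u} [LinearOrder R] [WellFoundedLT R]
    (hR : #R < κ) (r : Set V → R)
    (hr : ∀ (X : Set V), ∀ v ∈ X,
      (Sm G θ {x | x ∈ X ∧ v < x ∧ G.Adj v x} ∨ r {x | x ∈ X ∧ v < x ∧ G.Adj v x} < r X) ∨
      (Sm G θ {x | x ∈ X ∧ ¬ G.Adj v x} ∨ r {x | x ∈ X ∧ ¬ G.Adj v x} < r X)) :
    Sm G κ univ := by
  classical
  have hreg : κ.IsRegular := hκ.isRegular
  have hmain : ∀ t : R, ∃ M : Type u, #M < κ ∧ ∀ X : Set V, r X = t → ColOn G X M := by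
    intro t
    induction t using WellFoundedLT.induction with
    | ind t ih =>
      choose! M hM hcol using ih
      obtain ⟨Θ, hΘ⟩ : ∃ Θ : Type u, #Θ = θ := ⟨θ.out, Cardinal.mk_out θ⟩
      let P : Type u := Θ ⊕ Σ s : Iio t, M s.1
      have hS : #(Σ s : Iio t, M s.1) < κ := by
        rw [Cardinal.mk_sigma]
        exact Cardinal.sum_lt_of_isRegular hreg ((Cardinal.mk_subtype_le _).trans_lt hR)
          (fun s => hM s.1 s.2)
      have hP : #P < κ := by
        rw [Cardinal.mk_sum, Cardinal.lift_id, Cardinal.lift_id]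
        exact Cardinal.add_lt_of_lt hreg.1 (by rw [hΘ]; exact hθ) hS
      have hPΛ : #(P → Λ) < κ := by
        have e1 : #(P → Λ) = #Λ ^ #P := (Cardinal.power_def Λ P).symm
        rw [e1]
        calc #Λ ^ #P ≤ (2 ^ #Λ) ^ #P := Cardinal.power_le_power_right (Cardinal.cantor _).le
          _ = 2 ^ (#Λ * #P) := by rw [Cardinal.power_mul]
          _ < κ := hκ.isStrongLimit.isStrongPrelimit (Cardinal.mul_lt_of_lt hreg.1 hΛ hP)
      have hlim : ∀ c : Cardinal.{u}, c < κ → Order.succ c < κ := fun c hc =>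
        (Order.succ_le_of_lt (Cardinal.cantor c)).trans_lt
          (hκ.isStrongLimit.isStrongPrelimit hc)
      refine ⟨(Order.succ (max (max #(P → Λ) #P) (Order.succ #Λ))).out, ?_, ?_⟩
      · rw [Cardinal.mk_out]
        exact hlim _ (max_lt (max_lt hPΛ hP) (hlim _ hΛ))
      · intro X hXt
        obtain ⟨α, hα, h⟩ := split_step hbad hΛ0 P X (by
          intro v hv
          have hsm : ∀ Y : Set V, Sm G θ Y ∨ r Y < r X → ColOn G Y P := by
            intro Y hY
            rcases hY with ⟨α, hα, h⟩ | h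
            · refine h.of_card_le ?_
              rw [← hΘ] at hα
              exact hα.le.trans (Cardinal.mk_le_of_injective (f := Sum.inl)
                Sum.inl_injective)
            · rw [hXt] at h
              refine (hcol _ h Y rfl).of_card_le ?_
              exact Cardinal.mk_le_of_injective
                (f := fun a => (Sum.inr ⟨⟨r Y, h⟩, a⟩ : P)) (by
                intro a b hab
                exact eq_of_heq (Sigma.mk.inj (Sum.inr.inj hab)).2)
          rcases hr X v hv with h | h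
          · exact Or.inl (hsm _ h)
          · exact Or.inr (hsm _ h))
        refine h.of_card_le ?_
        rw [Cardinal.mk_out]
        exact hα.le
  obtain ⟨M, hM, hcol⟩ := hmain (r univ)
  exact ⟨M, hM, hcol univ rfl⟩

theorem splitting (κ : Cardinal.{u}) (hκ : κ.IsInaccessible) (V : Type u) [LinearOrder V]
    (G : SimpleGraph V) (hG : ∀ α : Type u, #α < κ → IsEmpty (G.Coloring α))
    (θ : Cardinal.{u}) (hθ : θ < κ) (R : Type u) [LinearOrder R] [WellFoundedLT R]
    (hR : #R < κ) (r : Set V → R)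
    (hr : ∀ (X : Set V), ∀ v ∈ X,
      (ChromaticLT G θ {x | x ∈ X ∧ v < x ∧ G.Adj v x} ∨
        r {x | x ∈ X ∧ v < x ∧ G.Adj v x} < r X) ∨
      (ChromaticLT G θ {x | x ∈ X ∧ ¬ G.Adj v x} ∨ r {x | x ∈ X ∧ ¬ G.Adj v x} < r X))
    (μ : Cardinal.{u}) (hμ : μ < κ) :
    ∃ H : SimpleGraph V, H ≤ G ∧ H.CliqueFree 3 ∧
      ∀ α : Type u, #α < μ → IsEmpty (H.Coloring α) := by
  by_contra h
  obtain ⟨Λ, hΛ⟩ : ∃ Λ : Type u, #Λ = max μ ℵ₀ := ⟨(max μ ℵ₀).out, Cardinal.mk_out _⟩
  have hbad : Bad G Λ := bad_of h (by rw [hΛ]; exact le_max_left _ _)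
  have hΛκ : #Λ < κ := by rw [hΛ]; exact max_lt hμ hκ.aleph0_lt
  have hΛ0 : ℵ₀ ≤ #Λ := by rw [hΛ]; exact le_max_right _ _
  have hb : Sm G κ univ := by
    refine split_bound hbad hΛ0 hκ hΛκ (θ := max θ ℵ₀) (max_lt hθ hκ.aleph0_lt) hR r ?_
    intro X v hv
    rcases hr X v hv with (h1 | h1) | (h1 | h1)
    · exact Or.inl (Or.inl (h1.sm (le_max_left _ _) (le_max_right _ _)))
    · exact Or.inl (Or.inr h1)
    · exact Or.inr (Or.inl (h1.sm (le_max_left _ _) (le_max_right _ _)))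
    · exact Or.inr (Or.inr h1)
  obtain ⟨α, hα, f, hf⟩ := hb
  refine (hG α hα).false (SimpleGraph.Coloring.mk f ?_)
  intro x y hxy
  exact hf x (mem_univ _) y (mem_univ _) hxy

end Pool.Agent.Helper94.TF
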