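import Pool.Agent.Helper94.TF.Split

/-!
# Two special cases of the splitting rank theorem: stable graphs and the clique rank
-/

set_option autoImplicit false

open Cardinal Set

namespace Pool.Agent.Helper94.TF

open Pool.Agent.Helper25.TF

universe u

variable {V : Type u}

/-- there is a binary tree of height `n` of vertices of `P` whose leaves are in `X` -/
def Ht (G : SimpleGraph V) (P : Set V) : ℕ → Set V → Prop
  | 0, X => X.Nonempty
  | n + 1, X => ∃ v ∈ P, Ht G P n {x | x ∈ X ∧ G.Adj v x} ∧ Ht G P n {x | x ∈ X ∧ ¬ G.Adj v x}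

theorem Ht.mono {G : SimpleGraph V} {P Q : Set V} (hPQ : P ⊆ Q) {n : ℕ} :
    ∀ {X Y : Set V}, X ⊆ Y → Ht G P n X → Ht G Q n Y := by
  induction n with
  | zero =>
    intro X Y hXY h
    exact Set.Nonempty.mono hXY h
  | succ n ih =>
    rintro X Y hXY ⟨v, hv, h1, h2⟩
    exact ⟨v, hPQ hv, ih (fun x hx => ⟨hXY hx.1, hx.2⟩) h1,
      ih (fun x hx => ⟨hXY hx.1, hx.2⟩) h2⟩

theorem Ht.nonempty {G : SimpleGraph V} {P : Set V} {n : ℕ} :
    ∀ {X : Set V}, Ht G P n X → X.Nonempty := by
  induction n with
  | zero =>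
    intro X h
    exact h
  | succ n ih =>
    rintro X ⟨v, -, h1, -⟩
    obtain ⟨x, hx⟩ := ih h1
    exact ⟨x, hx.1⟩

theorem Ht.split {G : SimpleGraph V} (c : V → Prop) {P : Set V} :
    ∀ (k m n : ℕ), k = m + n → ∀ {X : Set V}, Ht G P k X →
      Ht G {v | v ∈ P ∧ c v} m X ∨ Ht G {v | v ∈ P ∧ ¬ c v} n X := by
  intro k
  induction k with
  | zero =>
    intro m n h X hX
    have hm : m = 0 := by omega
    subst hm
    exact Or.inl hX.nonempty
  | succ k ih =>
    intro m n h X hX
    rcases Nat.eq_zero_or_pos m with hm | hm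
    · subst hm
      exact Or.inl hX.nonempty
    rcases Nat.eq_zero_or_pos n with hn | hn
    · subst hn
      exact Or.inr hX.nonempty
    obtain ⟨v, hv, h1, h2⟩ := hX
    have s1 : {x | x ∈ X ∧ G.Adj v x} ⊆ X := fun x hx => hx.1
    have s2 : {x | x ∈ X ∧ ¬ G.Adj v x} ⊆ X := fun x hx => hx.1
    by_cases hc : c v
    · rcases ih (m - 1) n (by omega) h1 with h3 | h3
      · rcases ih (m - 1) n (by omega) h2 with h4 | h4
        · left
          obtain ⟨m', rfl⟩ : ∃ m', m = m' + 1 := ⟨m - 1, by omega⟩
          exact ⟨v, ⟨hv, hc⟩, h3, h4⟩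
        · exact Or.inr (h4.mono Subset.rfl s2)
      · exact Or.inr (h3.mono Subset.rfl s1)
    · rcases ih m (n - 1) (by omega) h1 with h3 | h3
      · exact Or.inl (h3.mono Subset.rfl s1)
      · rcases ih m (n - 1) (by omega) h2 with h4 | h4
        · exact Or.inl (h4.mono Subset.rfl s2)
        · right
          obtain ⟨n', rfl⟩ : ∃ n', n = n' + 1 := ⟨n - 1, by omega⟩
          exact ⟨v, ⟨hv, hc⟩, h3, h4⟩

/-- a half graph up to the diagonal -/
def Half (G : SimpleGraph V) (X P : Set V) (k : ℕ) : Prop :=
  ∃ a b : ℕ → V, (∀ i < k, a i ∈ X ∧ b i ∈ P) ∧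
    ∀ i < k, ∀ j < k, i ≠ j → (G.Adj (b j) (a i) ↔ i < j)

/-- the height which gives a half graph of length `k` -/
def hh : ℕ → ℕ
  | 0 => 0
  | k + 1 => (hh k + 1) + (hh k + 1)

theorem half_of_ht {G : SimpleGraph V} (k : ℕ) :
    ∀ {X P : Set V}, Ht G P (hh k) X → Half G X P k := by
  induction k with
  | zero =>
    intro X P h
    obtain ⟨x, -⟩ := h.nonempty
    exact ⟨fun _ => x, fun _ => x, by simp, by simp⟩
  | succ k ih =>
    intro X P h
    obtain ⟨a0, ha0⟩ := h.nonempty
    rcases h.split (fun v => G.Adj v a0) _ _ _ rfl with ⟨v, hv, -, h2⟩ | ⟨v, hv, h1, -⟩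
    · obtain ⟨a, b, hab, hadj⟩ := ih h2
      refine ⟨fun i => if i = 0 then a0 else a (i - 1), fun i => if i = 0 then v else b (i - 1),
        ?_, ?_⟩
      · intro i hi
        by_cases h0 : i = 0
        · simp only [h0, if_true]
          exact ⟨ha0, hv.1⟩
        · simp only [h0, if_false]
          have := hab (i - 1) (by omega)
          exact ⟨this.1.1, this.2.1⟩
      · intro i hi j hj hij
        by_cases h0 : i = 0
        · have hj0 : j ≠ 0 := by omega
          simp only [h0, hj0, if_true, if_false]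
          constructor
          · intro _
            omega
          · intro _
            exact (hab (j - 1) (by omega)).2.2
        · by_cases hj0 : j = 0
          · simp only [h0, hj0, if_true, if_false]
            constructor
            · intro h3
              exact absurd h3 (hab (i - 1) (by omega)).1.2
            · intro h3
              omega
          · simp only [h0, hj0, if_false]
            rw [hadj (i - 1) (by omega) (j - 1) (by omega) (by omega)]
            omega
    · obtain ⟨a, b, hab, hadj⟩ := ih h1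
      refine ⟨fun i => if i = k then a0 else a i, fun i => if i = k then v else b i, ?_, ?_⟩
      · intro i hi
        by_cases h0 : i = k
        · simp only [h0, if_true]
          exact ⟨ha0, hv.1⟩
        · simp only [h0, if_false]
          have := hab i (by omega)
          exact ⟨this.1.1, this.2.1⟩
      · intro i hi j hj hij
        by_cases h0 : i = k
        · have hj0 : j ≠ k := by omega
          simp only [h0, hj0, if_true, if_false]
          constructor
          · intro h3
            exact absurd h3 (hab j (by omega)).2.2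
          · intro h3
            omega
        · by_cases hj0 : j = k
          · simp only [h0, hj0, if_true, if_false]
            constructor
            · intro _
              omega
            · intro _
              exact (hab i (by omega)).1.2
          · simp only [h0, hj0, if_false]
            exact hadj i (by omega) j (by omega) hij

/-- Q1 for stable graphs: some finite half graph does not occur -/
theorem stable (κ : Cardinal.{u}) (hκ : κ.IsInaccessible) (V : Type u)
    (G : SimpleGraph V) (hG : ∀ α : Type u, #α < κ → IsEmpty (G.Coloring α)) (k : ℕ)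
    (hk : ¬ ∃ a b : Fin k → V, ∀ i j, G.Adj (a i) (b j) ↔ i < j)
    (μ : Cardinal.{u}) (hμ : μ < κ) :
    ∃ H : SimpleGraph V, H ≤ G ∧ H.CliqueFree 3 ∧
      ∀ α : Type u, #α < μ → IsEmpty (H.Coloring α) := by
  classical
  let _ : LinearOrder V := linearOrderOfSTO WellOrderingRel
  have hN : ∀ X : Set V, ¬ Ht G univ (hh (2 * k)) X := by
    intro X hX
    obtain ⟨a, b, -, hadj⟩ := half_of_ht (2 * k) hX
    apply hk
    refine ⟨fun i => a (2 * i.1 + 1), fun j => b (2 * j.1), ?_⟩
    intro i j
    have hi := i.2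
    have hj := j.2
    rw [G.adj_comm, hadj (2 * i.1 + 1) (by omega) (2 * j.1) (by omega) (by omega), Fin.lt_def]
    omega
  set N := hh (2 * k) with hNdef
  refine splitting κ hκ V G hG 1 (Cardinal.one_lt_aleph0.trans hκ.aleph0_lt) (ULift.{u} ℕ) ?_
    (fun X => ULift.up (Nat.findGreatest (fun n => Ht G univ n X) N)) ?_ μ hμ
  · simpa using hκ.aleph0_lt
  · intro X v hv
    by_contra hcon
    push Not at hcon
    obtain ⟨⟨h1, h2⟩, h3, h4⟩ := hcon
    set n := Nat.findGreatest (fun n => Ht G univ n X) N with hn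
    have h2' : n ≤ Nat.findGreatest (fun n => Ht G univ n {x | x ∈ X ∧ v < x ∧ G.Adj v x}) N := h2
    have h4' : n ≤ Nat.findGreatest (fun n => Ht G univ n {x | x ∈ X ∧ ¬ G.Adj v x}) N := h4
    have hne : ∀ Y : Set V, ¬ ChromaticLT G 1 Y → Y.Nonempty := by
      intro Y hY
      by_contra he
      rw [Set.not_nonempty_iff_eq_empty] at he
      apply hY
      subst he
      exact ⟨PEmpty, by simp, ⟨SimpleGraph.Coloring.mk (fun x => x.2.elim)
        (fun {x} => x.2.elim)⟩⟩
    have hle : ∀ Y : Set V, Y.Nonempty → n ≤ Nat.findGreatest (fun n => Ht G univ n Y) N →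
        Ht G univ n Y := by
      intro Y hY hle
      -- heights go down
      have hdown : ∀ (m : ℕ) (Z : Set V), Ht G univ (m + 1) Z → Ht G univ m Z := by
        intro m
        induction m with
        | zero =>
          intro Z hZ
          exact hZ.nonempty
        | succ m ih =>
          rintro Z ⟨w, hw, k1, k2⟩
          exact ⟨w, hw, ih _ k1, ih _ k2⟩
      have hdown' : ∀ (d m : ℕ) (Z : Set V), Ht G univ (m + d) Z → Ht G univ m Z := by
        intro d
        induction d with
        | zero =>
          intro m Z hZ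
          exact hZ
        | succ d ih =>
          intro m Z hZ
          exact ih m Z (hdown _ Z hZ)
      have hsp := Nat.findGreatest_spec (P := fun n => Ht G univ n Y) (m := 0) (n := N)
        (Nat.zero_le _) hY
      obtain ⟨d, hd⟩ := Nat.exists_eq_add_of_le hle
      rw [hd] at hsp
      exact hdown' d n Y hsp
    have k1 := hle _ (hne _ h1) h2'
    have k2 := hle _ (hne _ h3) h4'
    have k3 : Ht G univ (n + 1) X :=
      ⟨v, mem_univ _, k1.mono Subset.rfl (fun x hx => ⟨hx.1, hx.2.2⟩), k2⟩
    have k4 : n + 1 ≤ N := by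
      by_contra hlt
      have h5 : n = N := by
        have := Nat.findGreatest_le (P := fun n => Ht G univ n X) N
        omega
      rw [h5] at k1
      exact hN _ k1
    have k5 := Nat.le_findGreatest (P := fun n => Ht G univ n X) k4 k3
    omega

/-- the clique rank theorem is a special case -/
theorem clique_rank (κ : Cardinal.{u}) (hκ : κ.IsInaccessible) (V : Type u) [LinearOrder V]
    (G : SimpleGraph V) (hG : ∀ α : Type u, #α < κ → IsEmpty (G.Coloring α))
    (θ : Cardinal.{u}) (hθ : θ < κ) (R : Type u) [LinearOrder R] [WellFoundedLT R]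
    (hR : #R < κ) (rk : Finset V → R)
    (hrk : ∀ (s : Finset V) (v : V), G.IsClique (↑s : Set V) → (∀ w ∈ s, w < v ∧ G.Adj w v) →
      ChromaticLT G θ {x | ∀ w ∈ insert v s, w < x ∧ G.Adj w x} ∨ rk (insert v s) < rk s)
    (μ : Cardinal.{u}) (hμ : μ < κ) :
    ∃ H : SimpleGraph V, H ≤ G ∧ H.CliqueFree 3 ∧
      ∀ α : Type u, #α < μ → IsEmpty (H.Coloring α) := by
  classical
  let S : Set V → Set R := fun X => {t | ∃ s : Finset V, G.IsClique (↑s : Set V) ∧
    (∀ x ∈ X, ∀ w ∈ s, w < x ∧ G.Adj w x) ∧ rk s = t}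
  have hS : ∀ X, (S X).Nonempty := fun X => ⟨rk ∅, ∅, by simp, by simp, rfl⟩
  have wf : WellFounded (fun a b : R => a < b) := wellFounded_lt
  refine splitting κ hκ V G hG θ hθ R hR (fun X => wf.min (S X) (hS X)) ?_ μ hμ
  intro X v hv
  obtain ⟨s, hs, hsX, hst⟩ := wf.min_mem (S X) (hS X)
  have hcl : G.IsClique (↑(insert v s) : Set V) := by
    rw [Finset.coe_insert, SimpleGraph.isClique_insert]
    exact ⟨hs, fun w hw _ => (hsX v hv w hw).2.symm⟩
  have hsub : ∀ x ∈ {x | x ∈ X ∧ v < x ∧ G.Adj v x}, ∀ w ∈ insert v s,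
      w < x ∧ G.Adj w x := by
    intro x hx w hw
    rcases Finset.mem_insert.1 hw with rfl | hw
    · exact hx.2
    · exact hsX x hx.1 w hw
  left
  rcases hrk s v hs (hsX v hv) with h | h
  · left
    obtain ⟨α, hα, ⟨c⟩⟩ := h
    refine ⟨α, hα, ⟨SimpleGraph.Coloring.mk (fun x => c ⟨x.1, hsub x.1 x.2⟩) ?_⟩⟩
    intro x y hxy
    exact c.valid (by simpa using hxy)
  · right
    calc wf.min (S {x | x ∈ X ∧ v < x ∧ G.Adj v x}) (hS _) ≤ rk (insert v s) :=
          wf.min_le (show rk (insert v s) ∈ S {x | x ∈ X ∧ v < x ∧ G.Adj v x} from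
            ⟨insert v s, hcl, hsub, rfl⟩)
      _ < rk s := h
      _ = wf.min (S X) (hS X) := hst

end Pool.Agent.Helper94.TF
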