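import Pool.Agent.Helper94.TF.Lolli
import Pool.Agent.Helper94.TF.Bicl
import Pool.Agent.Helper94.TF.Forced
import Pool.Agent.Helper25.TF.Final

/-!
# Unavoidable induced subgraphs
-/

set_option autoImplicit false

open Cardinal Set

namespace Pool.Agent.Helper94.TF

open Pool.Agent.Helper25.TF

universe u

variable {V : Type u}

theorem forced_ray [Nonempty V] {G : SimpleGraph V} {Λ : Type u} (hbad : Bad G Λ)
    (hΛ : ℵ₀ ≤ #Λ) {W : Set V} (hW : ¬ Sm G (Order.succ (2 ^ #Λ)) W) :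
    Emb G W (SimpleGraph.hasse ℕ) := by
  obtain ⟨C, hC⟩ : ∃ C : Type u, #C = 2 ^ #Λ := ⟨(2 ^ #Λ : Cardinal.{u}).out, Cardinal.mk_out _⟩
  rw [← hC, sm_iff] at hW
  obtain ⟨p, D, hp1, hp2, hD, hpD⟩ := run hbad hΛ hC.ge hW
  refine ⟨p, ?_, hp1, ?_⟩
  · intro a b hab
    have h1 : G.Adj (p a) (p (a + 1)) := (hp2 _ _).2 (Or.inr rfl)
    have h2 : G.Adj (p b) (p (b + 1)) := (hp2 _ _).2 (Or.inr rfl)
    rw [hab] at h1
    rw [← hab] at h2
    have h3 := (hp2 _ _).1 h1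
    have h4 := (hp2 _ _).1 h2
    omega
  · intro x y
    rw [hp2, SimpleGraph.hasse_adj, Nat.covBy_iff_add_one_eq, Nat.covBy_iff_add_one_eq]
    omega

theorem forced_dunion {G : SimpleGraph V} {Λ : Type u} (hbad : Bad G Λ) (hΛ : ℵ₀ ≤ #Λ)
    {ν : Cardinal.{u}} (hν : 2 ^ Order.succ #Λ ≤ ν) {W : Set V} (hW : ¬ Sm G (Order.succ ν) W)
    {β : ℕ → Type} {H : ∀ n, SimpleGraph (β n)}
    (hH : ∀ n, ∀ W : Set V, ¬ Sm G (Order.succ ν) W → Emb G W (H n)) : Emb G W (dunion H) := by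
  classical
  have hν0 : ℵ₀ ≤ ν := (hΛ.trans ((Order.le_succ _).trans (Cardinal.cantor _).le)).trans hν
  have hreg : (Order.succ ν).IsRegular := Cardinal.isRegular_succ hν0
  obtain ⟨Y, hY1, hY2⟩ := exists_seq
    (fun W' hW' => pair hbad hΛ hreg (hν.trans_lt (Order.lt_succ ν)) hW') hW
  have hY3 : ∀ n, ¬ Sm G (Order.succ ν) {x | x ∈ Y n ∧ ∀ m, m ≠ n → x ∉ Y m} := by
    intro n h
    apply (hY1 n).2
    have h2 : Sm G (Order.succ ν) {x | x ∈ Y n ∧ ∃ m, m ≠ n ∧ x ∈ Y m} := by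
      refine ⟨PUnit, ?_, fun _ => PUnit.unit, ?_⟩
      · rw [Cardinal.mk_punit]
        exact Cardinal.one_lt_aleph0.trans_le hreg.1
      · rintro a ⟨ha, m, hm, ham⟩ b ⟨hb, -⟩ hab
        exact absurd hab (hY2 m n hm a ham b hb)
    refine (Sm.union hreg h h2).mono ?_
    intro x hx
    by_cases h3 : ∃ m, m ≠ n ∧ x ∈ Y m
    · exact Or.inr ⟨hx, h3⟩
    · push Not at h3
      exact Or.inl ⟨hx, h3⟩
  have hf := fun n => hH n _ (hY3 n)
  choose f hf1 hf2 hf3 using hf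
  have hne : ∀ m n (a : β m) (b : β n), m ≠ n → f m a ≠ f n b ∧ ¬ G.Adj (f m a) (f n b) := by
    intro m n a b hmn
    constructor
    · intro h
      apply (hf2 m a).2 n hmn.symm
      rw [h]
      exact (hf2 n b).1
    · exact hY2 m n hmn _ (hf2 m a).1 _ (hf2 n b).1
  refine ⟨fun x => f x.1 x.2, ?_, ?_, ?_⟩
  · rintro ⟨m, a⟩ ⟨n, b⟩ h
    by_cases hmn : m = n
    · subst hmn
      have h' : a = b := hf1 m h
      rw [h']
    · exact absurd h (hne m n a b hmn).1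
  · rintro ⟨n, a⟩
    exact (hY1 n).1 (hf2 n a).1
  · rintro ⟨m, a⟩ ⟨n, b⟩
    constructor
    · intro h
      by_cases hmn : m = n
      · subst hmn
        exact ⟨m, a, b, rfl, rfl, (hf3 m a b).1 h⟩
      · exact absurd h (hne m n a b hmn).2
    · rintro ⟨k, a', b', h1, h2, h3⟩
      have e1 : f m a = f k a' := congrArg (fun x : Σ n, β n => f x.1 x.2) h1
      have e2 : f n b = f k b' := congrArg (fun x : Σ n, β n => f x.1 x.2) h2
      change G.Adj (f m a) (f n b)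
      rw [e1, e2]
      exact (hf3 k a' b').2 h3

theorem forced_lolli [Nonempty V] {G : SimpleGraph V} {Λ : Type u} (hbad : Bad G Λ)
    (hΛ : ℵ₀ ≤ #Λ) {ν : Cardinal.{u}} {W : Set V}
    (hW : ¬ Sm G (Order.succ (2 ^ max ν #Λ)) W) {β : Type} {H : SimpleGraph β}
    (hH : ∀ W : Set V, ¬ Sm G (Order.succ ν) W → Emb G W H) (k : ℕ) :
    Emb G W (lolli H k) := by
  obtain ⟨N, hN⟩ : ∃ N : Type u, #N = max ν #Λ := ⟨(max ν #Λ).out, Cardinal.mk_out _⟩
  obtain ⟨C, hC⟩ : ∃ C : Type u, #C = 2 ^ max ν #Λ :=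
    ⟨(2 ^ max ν #Λ : Cardinal.{u}).out, Cardinal.mk_out _⟩
  have hN0 : ℵ₀ ≤ #N := by
    rw [hN]
    exact hΛ.trans (le_max_right _ _)
  rw [← hC, sm_iff] at hW
  have hC1 : 2 ^ #Λ ≤ #C := by
    rw [hC]
    exact Cardinal.power_le_power_left two_ne_zero (le_max_right _ _)
  have hC2 : #(N → Λ) ≤ #C := by
    calc #(N → Λ) = #Λ ^ #N := (Cardinal.power_def _ _).symm
      _ ≤ (2 ^ #Λ) ^ #N := Cardinal.power_le_power_right (Cardinal.cantor _).le
      _ = 2 ^ (#Λ * #N) := (Cardinal.power_mul).symm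
      _ ≤ 2 ^ #N := Cardinal.power_le_power_left two_ne_zero (by
          refine (mul_le_mul_left (?_ : #Λ ≤ #N) _).trans (Cardinal.mul_eq_self hN0).le
          rw [hN]
          exact le_max_right _ _)
      _ = #C := by rw [hC, hN]
  obtain ⟨L, s, hL, hLc, hs1, hs2, hs3⟩ := lolli_step hbad hΛ hN0 hC1 hC2 hW k
  obtain ⟨f, hf1, hf2, hf3⟩ := hH L (fun h => hLc (by
    rw [← sm_iff]
    refine h.mono_card ?_
    rw [hN]
    exact Order.succ_le_succ (le_max_left _ _)))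
  have hle : ∀ i : Fin (k + 1), i.val ≤ k := fun i => by omega
  refine ⟨Sum.elim f (fun i => s i.val), ?_, ?_, ?_⟩
  · rintro (a | i) (b | j) h
    · rw [hf1 h]
    · exact absurd h (hs3 _ (hf2 a) _ (hle j)).1
    · exact absurd h.symm (hs3 _ (hf2 b) _ (hle i)).1
    · have h1 := (hs2 _ (hle i) _ (hle j)).2 h
      rw [Fin.ext h1]
  · rintro (a | i)
    · exact hL (hf2 a)
    · exact hs1 _ (hle i)
  · rintro (a | i) (b | j)
    · exact hf3 a b
    · change G.Adj (f a) (s j.val) ↔ j = 0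
      rw [G.adj_comm, (hs3 _ (hf2 a) _ (hle j)).2]
      exact ⟨fun h => Fin.ext h, fun h => by rw [h]; rfl⟩
    · change G.Adj (s i.val) (f b) ↔ i = 0
      rw [(hs3 _ (hf2 b) _ (hle i)).2]
      exact ⟨fun h => Fin.ext h, fun h => by rw [h]; rfl⟩
    · exact (hs2 _ (hle i) _ (hle j)).1

theorem forced_main [Nonempty V] {G : SimpleGraph V} {Λ : Type u} (hbad : Bad G Λ)
    (hΛ : ℵ₀ ≤ #Λ) {κ : Cardinal.{u}} (hκ : κ.IsInaccessible) (hΛκ : #Λ < κ) {β : Type}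
    {H : SimpleGraph β} (hH : Forced H) :
    ∃ ν < κ, ∀ W : Set V, ¬ Sm G (Order.succ ν) W → Emb G W H := by
  have hreg : κ.IsRegular := hκ.isRegular
  have hpow : ∀ c : Cardinal.{u}, c < κ → 2 ^ c < κ := fun c hc =>
    hκ.isStrongLimit.isStrongPrelimit hc
  have hsucc : ∀ c : Cardinal.{u}, c < κ → Order.succ c < κ := fun c hc =>
    (Order.succ_le_of_lt (Cardinal.cantor c)).trans_lt (hpow c hc)
  induction hH with
  | ray => exact ⟨2 ^ #Λ, hpow _ hΛκ, fun W hW => forced_ray hbad hΛ hW⟩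
  | biclique t =>
    refine ⟨Order.succ #Λ, hsucc _ hΛκ, fun W hW => ?_⟩
    by_contra hcon
    apply hW
    have h := bicl hbad hΛ t hcon
    rw [← sm_iff, mk_TT] at h
    exact h
  | dunion H _ ih =>
    choose ν hν1 hν2 using ih
    let N : Cardinal.{u} := Cardinal.sum (fun n : ULift.{u} ℕ => ν n.down)
    have hN : N < κ := by
      refine Cardinal.sum_lt_of_isRegular hreg ?_ (fun n => hν1 n.down)
      simpa using hκ.aleph0_lt
    refine ⟨max N (2 ^ Order.succ #Λ), max_lt hN (hpow _ (hsucc _ hΛκ)), fun W hW => ?_⟩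
    refine forced_dunion hbad hΛ (le_max_right _ _) hW ?_
    intro n W' hW'
    refine hν2 n W' (fun h => hW' (h.mono_card (Order.succ_le_succ ?_)))
    exact (Cardinal.le_sum (fun n : ULift.{u} ℕ => ν n.down) ⟨n⟩).trans (le_max_left _ _)
  | lolli H k _ ih =>
    obtain ⟨ν, hν1, hν2⟩ := ih
    exact ⟨2 ^ max ν #Λ, hpow _ (max_lt hν1 hΛκ),
      fun W hW => forced_lolli hbad hΛ hW hν2 k⟩
  | sub H H' e _ ih =>
    obtain ⟨ν, hν1, hν2⟩ := ih
    refine ⟨ν, hν1, fun W hW => ?_⟩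
    obtain ⟨f, hf1, hf2, hf3⟩ := hν2 W hW
    refine ⟨fun x => f (e x), fun x y h => e.injective (hf1 h), fun x => hf2 _, ?_⟩
    intro x y
    rw [hf3]
    exact e.map_adj_iff

/-- Q1 for graphs which omit a forced induced subgraph -/
theorem forced (κ : Cardinal.{u}) (hκ : κ.IsInaccessible) (V : Type u) (G : SimpleGraph V)
    (hG : ∀ α : Type u, #α < κ → IsEmpty (G.Coloring α)) {β : Type} (H₀ : SimpleGraph β)
    (hH : Forced H₀) (hfree : IsEmpty (H₀ ↪g G)) (μ : Cardinal.{u}) (hμ : μ < κ) :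
    ∃ H : SimpleGraph V, H ≤ G ∧ H.CliqueFree 3 ∧
      ∀ α : Type u, #α < μ → IsEmpty (H.Coloring α) := by
  by_contra h
  rcases isEmpty_or_nonempty V with hV | hV
  · refine (hG PUnit ?_).false (SimpleGraph.Coloring.mk (fun x => isEmptyElim x) ?_)
    · rw [Cardinal.mk_punit]
      exact Cardinal.one_lt_aleph0.trans hκ.aleph0_lt
    · intro x
      exact isEmptyElim x
  obtain ⟨Λ, hΛ⟩ : ∃ Λ : Type u, #Λ = max μ ℵ₀ := ⟨(max μ ℵ₀).out, Cardinal.mk_out _⟩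
  have hbad : Bad G Λ := bad_of h (by rw [hΛ]; exact le_max_left _ _)
  have hΛκ : #Λ < κ := by rw [hΛ]; exact max_lt hμ hκ.aleph0_lt
  have hΛ0 : ℵ₀ ≤ #Λ := by rw [hΛ]; exact le_max_right _ _
  obtain ⟨ν, hν1, hν2⟩ := forced_main hbad hΛ0 hκ hΛκ hH
  obtain ⟨f, hf1, -, hf3⟩ := hν2 Set.univ (by
    rintro ⟨α, hα, f, hf⟩
    refine (hG α (hα.trans_le (Order.succ_le_of_lt hν1))).false
      (SimpleGraph.Coloring.mk f ?_)
    intro x y hxy
    exact hf x (mem_univ _) y (mem_univ _) hxy)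
  exact hfree.false ⟨⟨f, hf1⟩, fun {a b} => hf3 a b⟩

end Pool.Agent.Helper94.TF
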